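import Mathlib

/-!
# Polynomial functions and some linear algebra (helper file)
-/

namespace Pool.Agent.W2helper94.PIT

open Matrix

variable {F : Type*} [Field F]

/-- `f` is a polynomial function of the coordinates. -/
def IsPF {ι : Type*} (f : (ι → F) → F) : Prop :=
  ∃ p : MvPolynomial ι F, ∀ x, MvPolynomial.eval x p = f x

section PF

variable {ι κ : Type*}

theorem IsPF.const (c : F) : IsPF (fun _ : ι → F => c) := ⟨MvPolynomial.C c, fun x => by simp⟩

theorem IsPF.coord (i : ι) : IsPF (fun x : ι → F => x i) := ⟨MvPolynomial.X i, fun x => by simp⟩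

theorem IsPF.add {f g : (ι → F) → F} (hf : IsPF f) (hg : IsPF g) : IsPF (fun x => f x + g x) := by
  obtain ⟨p, hp⟩ := hf
  obtain ⟨q, hq⟩ := hg
  exact ⟨p + q, fun x => by simp [hp, hq]⟩

theorem IsPF.mul {f g : (ι → F) → F} (hf : IsPF f) (hg : IsPF g) : IsPF (fun x => f x * g x) := by
  obtain ⟨p, hp⟩ := hf
  obtain ⟨q, hq⟩ := hg
  exact ⟨p * q, fun x => by simp [hp, hq]⟩

theorem IsPF.sum {α : Type*} (s : Finset α) {f : α → (ι → F) → F} (hf : ∀ a ∈ s, IsPF (f a)) :
    IsPF (fun x => ∑ a ∈ s, f a x) := by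
  classical
  induction s using Finset.induction_on with
  | empty => simpa using IsPF.const (ι := ι) (0 : F)
  | insert a s ha ih =>
    simp only [Finset.sum_insert ha]
    exact (hf a (by simp)).add (ih fun b hb => hf b (by simp [hb]))

theorem IsPF.prod {α : Type*} (s : Finset α) {f : α → (ι → F) → F} (hf : ∀ a ∈ s, IsPF (f a)) :
    IsPF (fun x => ∏ a ∈ s, f a x) := by
  classical
  induction s using Finset.induction_on with
  | empty => simpa using IsPF.const (ι := ι) (1 : F)
  | insert a s ha ih =>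
    simp only [Finset.prod_insert ha]
    exact (hf a (by simp)).mul (ih fun b hb => hf b (by simp [hb]))

theorem IsPF.comp {f : (ι → F) → F} (hf : IsPF f) {g : (κ → F) → (ι → F)}
    (hg : ∀ i, IsPF (fun x => g x i)) : IsPF (fun x => f (g x)) := by
  obtain ⟨p, hp⟩ := hf
  choose q hq using hg
  refine ⟨MvPolynomial.bind₁ q p, fun x => ?_⟩
  show _ = f (g x)
  rw [← hp (g x)]
  have : MvPolynomial.eval x (MvPolynomial.bind₁ q p)
      = MvPolynomial.eval (fun i => MvPolynomial.eval x (q i)) p := by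
    simp only [← MvPolynomial.coe_aeval_eq_eval, RingHom.coe_coe]
    rw [← AlgHom.comp_apply]
    congr 1
    ext i
    simp
  rw [this]
  congr 2
  funext i
  exact hq i x

theorem IsPF.of_polynomial (p : Polynomial F) (i : ι) : IsPF (fun x : ι → F => p.eval (x i)) := by
  refine ⟨Polynomial.aeval (MvPolynomial.X i) p, fun x => ?_⟩
  have := Polynomial.hom_eval₂ p (algebraMap F (MvPolynomial ι F)) (MvPolynomial.eval x)
    (MvPolynomial.X i)
  rw [Polynomial.aeval_def, this, MvPolynomial.eval_X]
  have h2 : (MvPolynomial.eval x).comp (algebraMap F (MvPolynomial ι F)) = RingHom.id F := by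
    ext c
    simp
  rw [h2]
  rfl

variable [Infinite F]

theorem IsPF.ne_zero_mul {f g : (ι → F) → F} (hf : IsPF f) (hg : IsPF g)
    (hf0 : ∃ x, f x ≠ 0) (hg0 : ∃ x, g x ≠ 0) : ∃ x, f x * g x ≠ 0 := by
  obtain ⟨p, hp⟩ := hf
  obtain ⟨q, hq⟩ := hg
  by_contra hcon
  push Not at hcon
  have h0 : p * q = 0 := by
    apply MvPolynomial.funext
    intro x
    rw [map_mul, hp, hq, hcon, map_zero]
  rcases mul_eq_zero.mp h0 with h | h
  · obtain ⟨x, hx⟩ := hf0
    exact hx (by rw [← hp, h, map_zero])
  · obtain ⟨x, hx⟩ := hg0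
    exact hx (by rw [← hq, h, map_zero])

/-- density: a polynomial function which vanishes wherever a nonzero one does not is zero. -/
theorem IsPF.eq_zero_of_dense {f g : (ι → F) → F} (hf : IsPF f) (hg : IsPF g)
    (hf0 : ∃ x, f x ≠ 0) (h : ∀ x, f x ≠ 0 → g x = 0) : ∀ x, g x = 0 := by
  by_contra hcon
  push Not at hcon
  obtain ⟨x, hx⟩ := IsPF.ne_zero_mul hf hg hf0 hcon
  exact hx (by
    rcases eq_or_ne (f x) 0 with h0 | h0
    · rw [h0, zero_mul]
    · rw [h x h0, mul_zero])

theorem IsPF.exists_common {α : Type*} (s : Finset α) {f : α → (ι → F) → F}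
    (hf : ∀ a ∈ s, IsPF (f a)) (hf0 : ∀ a ∈ s, ∃ x, f a x ≠ 0) : ∃ x, ∀ a ∈ s, f a x ≠ 0 := by
  classical
  have key : ∃ x, ∏ a ∈ s, f a x ≠ 0 := by
    induction s using Finset.induction_on with
    | empty => exact ⟨fun _ => 0, by simp⟩
    | insert a s ha ih =>
      simp only [Finset.prod_insert ha]
      exact IsPF.ne_zero_mul (hf a (by simp)) (IsPF.prod s fun b hb => hf b (by simp [hb]))
        (hf0 a (by simp)) (ih (fun b hb => hf b (by simp [hb])) (fun b hb => hf0 b (by simp [hb])))
  obtain ⟨x, hx⟩ := key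
  exact ⟨x, fun a ha => (Finset.prod_ne_zero_iff.mp hx) a ha⟩

end PF

section MPF

variable {ι κ : Type*} {m n k : Type*}

/-- matrices with polynomial entries -/
def MPF (A : (ι → F) → Matrix m n F) : Prop := ∀ a b, IsPF (fun x => A x a b)

theorem MPF.const (A : Matrix m n F) : MPF (fun _ : ι → F => A) := fun a b => IsPF.const (A a b)

theorem MPF.mul [Fintype n] {A : (ι → F) → Matrix m n F} {B : (ι → F) → Matrix n k F}
    (hA : MPF A) (hB : MPF B) : MPF (fun x => A x * B x) := by
  intro a b
  simp only [Matrix.mul_apply]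
  exact IsPF.sum _ fun c _ => (hA a c).mul (hB c b)

theorem MPF.comp {A : (ι → F) → Matrix m n F} (hA : MPF A) {g : (κ → F) → (ι → F)}
    (hg : ∀ i, IsPF (fun x => g x i)) : MPF (fun x => A (g x)) :=
  fun a b => (hA a b).comp hg

theorem MPF.list_prod [Fintype m] [DecidableEq m] (L : List ℕ) {A : ℕ → (ι → F) → Matrix m m F}
    (hA : ∀ l ∈ L, MPF (A l)) : MPF (fun x => (L.map fun l => A l x).prod) := by
  induction L with
  | nil => simpa using MPF.const (ι := ι) (1 : Matrix m m F)
  | cons l L ih =>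
    simp only [List.map_cons, List.prod_cons]
    exact (hA l (by simp)).mul (ih fun l' hl' => hA l' (by simp [hl']))

theorem MPF.det [Fintype m] [DecidableEq m] {A : (ι → F) → Matrix m m F} (hA : MPF A) :
    IsPF (fun x => (A x).det) := by
  simp only [Matrix.det_apply']
  refine IsPF.sum _ fun σ _ => (IsPF.const _).mul (IsPF.prod _ fun i _ => hA _ _)

theorem MPF.dot [Fintype m] [Fintype n] {A : (ι → F) → Matrix m n F} (hA : MPF A)
    (y : m → F) (v : n → F) : IsPF (fun x => y ⬝ᵥ (A x *ᵥ v)) := by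
  simp only [dotProduct, mulVec]
  exact IsPF.sum _ fun a _ => (IsPF.const _).mul (IsPF.sum _ fun b _ => (hA a b).mul (IsPF.const _))

end MPF

section Rank

variable {m n : Type*} [Fintype m] [Fintype n] [DecidableEq m] [DecidableEq n]

/-- If `rank A ≤ ρ ≤ rank (A B)` then `A` can be recovered from `A B`. -/
theorem exists_recover {ρ : ℕ} {A B : Matrix m m F} (h1 : A.rank ≤ ρ) (h2 : ρ ≤ (A * B).rank) :
    ∃ C : Matrix m m F, A * B * C = A := by
  have hle : LinearMap.range (A * B).mulVecLin ≤ LinearMap.range A.mulVecLin := by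
    rintro _ ⟨x, rfl⟩
    exact ⟨B *ᵥ x, by simp [Matrix.mulVec_mulVec]⟩
  have heq : LinearMap.range (A * B).mulVecLin = LinearMap.range A.mulVecLin := by
    apply Submodule.eq_of_le_of_finrank_le hle
    have := h1.trans h2
    simpa [Matrix.rank] using this
  have hcol : ∀ j : m, ∃ c : m → F, (A * B) *ᵥ c = A *ᵥ (Pi.single j 1) := by
    intro j
    have : A *ᵥ (Pi.single j 1) ∈ LinearMap.range (A * B).mulVecLin := by
      rw [heq]
      exact ⟨Pi.single j 1, by simp⟩
    obtain ⟨c, hc⟩ := this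
    exact ⟨c, by simpa using hc⟩
  choose c hc using hcol
  refine ⟨Matrix.of fun i j => c j i, ?_⟩
  ext i j
  have := congrFun (hc j) i
  simp only [Matrix.mulVec_single_one, Matrix.col_apply] at this
  rw [← this, Matrix.mul_apply, Matrix.mulVec, dotProduct]
  rfl

/-- the rank is at least `ρ` iff some compression to size `ρ` is invertible -/
theorem exists_det_ne_zero {ρ : ℕ} {A : Matrix m m F} (h : ρ ≤ A.rank) :
    ∃ (P : Matrix (Fin ρ) m F) (Q : Matrix m (Fin ρ) F), (P * A * Q).det ≠ 0 := by
  classical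
  -- choose independent vectors in the range
  have h' : ρ ≤ Module.finrank F (LinearMap.range A.mulVecLin) := h
  obtain ⟨b, hb⟩ := exists_linearIndependent_of_le_finrank h'
  have hpre : ∀ i, ∃ v : m → F, A.mulVecLin v = (b i : m → F) := fun i =>
    LinearMap.mem_range.mp (b i).2
  choose v hv using hpre
  have hlin : LinearIndependent F (fun i => A.mulVecLin (v i)) := by
    have h1 : LinearIndependent F (fun i => ((b i : LinearMap.range A.mulVecLin) : m → F)) :=
      hb.map' (LinearMap.range A.mulVecLin).subtype (Submodule.ker_subtype _)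
    convert h1 using 2
    exact hv _
  -- the map `T` sending `e_i` to `A v_i`
  let Q : Matrix m (Fin ρ) F := Matrix.of fun i j => v j i
  have hinj : Function.Injective (A * Q).mulVecLin := by
    rw [← LinearMap.ker_eq_bot, Matrix.ker_mulVecLin_eq_bot_iff]
    intro c hc
    have h2 : ∑ j, c j • A.mulVecLin (v j) = 0 := by
      rw [← hc]
      ext i
      simp only [Finset.sum_apply, Pi.smul_apply, smul_eq_mul, Matrix.mulVecLin_apply]
      simp only [Matrix.mulVec, dotProduct, Matrix.mul_apply, Q, Matrix.of_apply, Finset.mul_sum,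
        Finset.sum_mul]
      refine Finset.sum_congr rfl fun j _ => Finset.sum_congr rfl fun l _ => by ring
    have h3 := (Fintype.linearIndependent_iff.mp hlin) c h2
    funext j
    simpa using h3 j
  obtain ⟨g, hg⟩ := LinearMap.exists_leftInverse_of_injective _ (LinearMap.ker_eq_bot.mpr hinj)
  refine ⟨LinearMap.toMatrix' g, Q, ?_⟩
  have h1 : LinearMap.toMatrix' g * (A * Q) = 1 := by
    have := congrArg LinearMap.toMatrix' hg
    rw [LinearMap.toMatrix'_comp, LinearMap.toMatrix'_id] at this
    have h4 : LinearMap.toMatrix' ((A * Q).mulVecLin) = A * Q := by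
      rw [← Matrix.toLin'_apply', LinearMap.toMatrix'_toLin']
    rw [h4] at this
    exact this
  rw [Matrix.mul_assoc, h1]
  simp

omit [DecidableEq m] in
theorem le_rank_of_det_ne_zero {ρ : ℕ} {A : Matrix m m F} {P : Matrix (Fin ρ) m F}
    {Q : Matrix m (Fin ρ) F} (h : (P * A * Q).det ≠ 0) : ρ ≤ A.rank := by
  have h1 : (P * A * Q).rank = ρ := by
    have := Matrix.rank_of_isUnit (P * A * Q) ((Matrix.isUnit_iff_isUnit_det _).mpr h.isUnit)
    simpa using this
  calc ρ = (P * A * Q).rank := h1.symm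
    _ ≤ (P * A).rank := Matrix.rank_mul_le_left _ _
    _ ≤ A.rank := Matrix.rank_mul_le_right _ _

end Rank

end Pool.Agent.W2helper94.PIT
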