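import Pool.Agent.W2helper94.PIT.Basic

/-!
# Chains of matrices and few modifications of a base point (helper file)
-/

namespace Pool.Agent.W2helper94.PIT

open Matrix

variable {F : Type*} [Field F] {m : Type} [Fintype m] [DecidableEq m]

/-- the product of the matrices `M l (x l)` for `i ≤ l < j` -/
def cp (M : ℕ → F → Matrix m m F) (x : ℕ → F) (i j : ℕ) : Matrix m m F :=
  ((List.Ico i j).map fun l => M l (x l)).prod

variable {M : ℕ → F → Matrix m m F}

theorem cp_mul (x : ℕ → F) {i k j : ℕ} (h1 : i ≤ k) (h2 : k ≤ j) :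
    cp M x i k * cp M x k j = cp M x i j := by
  unfold cp
  rw [← List.prod_append, ← List.map_append, List.Ico.append_consecutive h1 h2]

theorem cp_congr {x x' : ℕ → F} {i j : ℕ} (h : ∀ l, i ≤ l → l < j → x l = x' l) :
    cp M x i j = cp M x' i j := by
  unfold cp
  congr 1
  apply List.map_congr_left
  intro l hl
  rw [List.Ico.mem] at hl
  rw [h l hl.1 hl.2]

theorem cp_self (x : ℕ → F) {i j : ℕ} (h : j ≤ i) : cp M x i j = 1 := by
  unfold cp
  rw [List.Ico.eq_nil_of_le h]
  simp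

theorem cp_MPF {ι : Type*} (hM : ∀ l, ∀ a b, ∃ p : Polynomial F, ∀ t, p.eval t = M l t a b)
    {g : (ι → F) → (ℕ → F)} (hg : ∀ l, IsPF (fun x => g x l)) (i j : ℕ) :
    MPF (fun x => cp M (g x) i j) := by
  unfold cp
  apply MPF.list_prod
  intro l _ a b
  obtain ⟨p, hp⟩ := hM l a b
  have h1 : IsPF (fun x : ι → F => p.eval (g x l)) := by
    have := (IsPF.of_polynomial (ι := Unit) p ()).comp (κ := ι) (g := fun x _ => g x l)
      (fun _ => hg l)
    exact this
  simpa [hp] using h1

/-- mixing two points: `x` below `c` and `z` from `c` on -/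
def mix (c : ℕ) (x z : ℕ → F) : ℕ → F := fun l => if l < c then x l else z l

theorem mix_lt {c l : ℕ} (x z : ℕ → F) (h : l < c) : mix c x z l = x l := by simp [mix, h]

theorem mix_ge {c l : ℕ} (x z : ℕ → F) (h : c ≤ l) : mix c x z l = z l := by
  simp [mix, Nat.not_lt.mpr h]

/-- `x` differs from `a` in at most `k` coordinates -/
def Md (a : ℕ → F) (k : ℕ) (x : ℕ → F) : Prop :=
  ∃ S : Finset ℕ, S.card ≤ k ∧ ∀ l, l ∉ S → x l = a l

theorem Md.self (a : ℕ → F) (k : ℕ) : Md a k a := ⟨∅, by simp, fun _ _ => rfl⟩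

theorem Md.mono {a x : ℕ → F} {k k' : ℕ} (h : Md a k x) (hk : k ≤ k') : Md a k' x := by
  obtain ⟨S, hS, h⟩ := h
  exact ⟨S, hS.trans hk, h⟩

theorem Md.mix {a x z : ℕ → F} {k k' : ℕ} (c : ℕ) (hx : Md a k x) (hz : Md a k' z) :
    Md a (k + k') (mix c x z) := by
  classical
  obtain ⟨S, hS, h⟩ := hx
  obtain ⟨S', hS', h'⟩ := hz
  refine ⟨S ∪ S', (Finset.card_union_le _ _).trans (by omega), fun l hl => ?_⟩
  rw [Finset.mem_union, not_or] at hl
  unfold PIT.mix
  split_ifs
  · exact h l hl.1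
  · exact h' l hl.2

theorem Md.mix_self {a x : ℕ → F} {k : ℕ} (c : ℕ) (hx : Md a k x) :
    Md a k (PIT.mix c x a) := by
  simpa using hx.mix c (Md.self a 0)

/-- rank at least `ρ` somewhere -/
def GeR (M : ℕ → F → Matrix m m F) (ρ i j : ℕ) : Prop := ∃ x : ℕ → F, ρ ≤ (cp M x i j).rank

theorem rank_cp_mono_left (x : ℕ → F) {i k j : ℕ} (h1 : i ≤ k) (h2 : k ≤ j) :
    (cp M x i j).rank ≤ (cp M x k j).rank := by
  rw [← cp_mul x h1 h2]
  exact Matrix.rank_mul_le_right _ _

theorem rank_cp_mono_right (x : ℕ → F) {i k j : ℕ} (h1 : i ≤ k) (h2 : k ≤ j) :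
    (cp M x i j).rank ≤ (cp M x i k).rank := by
  rw [← cp_mul x h1 h2]
  exact Matrix.rank_mul_le_left _ _

theorem GeR.mono {ρ i j i' j' : ℕ} (h : GeR M ρ i j) (h1 : i ≤ i') (h2 : i' ≤ j') (h3 : j' ≤ j) :
    GeR M ρ i' j' := by
  obtain ⟨x, hx⟩ := h
  exact ⟨x, hx.trans ((rank_cp_mono_left x h1 (h2.trans h3)).trans (rank_cp_mono_right x h2 h3))⟩

/-- the base conditions at level `ρ` for the first `n` positions -/
def Base (M : ℕ → F → Matrix m m F) (n : ℕ) (a : ℕ → F) (ρ : ℕ) : Prop :=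
  ∀ i j, i < j → j ≤ n → (∀ p q, i < p → p < q → q < j → GeR M (ρ + 1) p q) → GeR M ρ i j →
    ρ ≤ (cp M a i j).rank

/-- under the base conditions all ranks are at least `ρ` at the base point -/
theorem base_all {n ρ : ℕ} {a : ℕ → F} (hB : Base M n a ρ) :
    ∀ d p q, q - p ≤ d → p < q → q ≤ n → GeR M ρ p q → ρ ≤ (cp M a p q).rank := by
  intro d
  induction d with
  | zero => intro p q h1 h2; omega
  | succ d ih =>
    intro p q hd hpq hq hG
    by_cases hcase : ∀ p' q', p < p' → p' < q' → q' < q → GeR M (ρ + 1) p' q'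
    · exact hB p q hpq hq hcase hG
    · push Not at hcase
      obtain ⟨p', q', h1, h2, h3, h4⟩ := hcase
      have hA : (cp M a p' q').rank ≤ ρ := by
        by_contra hc
        exact h4 ⟨a, by omega⟩
      have e1 : ρ ≤ (cp M a p q').rank :=
        ih p q' (by omega) (by omega) (by omega) (hG.mono le_rfl (by omega) (by omega))
      have e2 : ρ ≤ (cp M a p' q).rank :=
        ih p' q (by omega) (by omega) hq (hG.mono (by omega) (by omega) le_rfl)
      rw [← cp_mul a h2.le h3.le] at e2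
      obtain ⟨C, hC⟩ := exists_recover hA e2
      rw [← cp_mul a h1.le h2.le] at e1
      calc ρ ≤ (cp M a p p' * cp M a p' q').rank := e1
        _ = (cp M a p q * C).rank := by
            rw [← cp_mul a h1.le (h2.trans h3).le, ← cp_mul a h2.le h3.le, Matrix.mul_assoc,
              hC]
        _ ≤ (cp M a p q).rank := Matrix.rank_mul_le_left _ _

section Rep

variable {k : Type} [Fintype k] [DecidableEq k]

/-- A multiplicative representation of matrices given by polynomial functions. -/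
structure PolyRep (F : Type*) [Field F] (m k : Type) [Fintype m] [DecidableEq m] [Fintype k]
    [DecidableEq k] where
  /-- the map -/
  toFun : Matrix m m F →* Matrix k k F
  /-- it is polynomial -/
  pf : ∀ {ι : Type} {A : (ι → F) → Matrix m m F}, MPF A → MPF (fun x => toFun (A x))

/-- the functional `y Φ(M_i ⋯ M_{j-1}) v` -/
def Psi (Φ : PolyRep F m k) (M : ℕ → F → Matrix m m F) (y v : k → F) (i j : ℕ) (x : ℕ → F) : F :=
  y ⬝ᵥ (Φ.toFun (cp M x i j) *ᵥ v)

/-- The claim at level `ρ` with `N` modifications. -/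
def Claim (Φ : PolyRep F m k) (M : ℕ → F → Matrix m m F) (n : ℕ) (a : ℕ → F) (ρ N : ℕ) : Prop :=
  ∀ i j, i ≤ j → j ≤ n → (∀ p q, i < p → p < q → q < j → GeR M ρ p q) →
    ∀ y v : k → F, (∀ x, Md a N x → Psi Φ M y v i j x = 0) → ∀ x, Psi Φ M y v i j x = 0

theorem claim_top (Φ : PolyRep F m k) (n : ℕ) (a : ℕ → F) :
    Claim Φ M n a (Fintype.card m + 1) 2 := by
  intro i j hij hjn hG y v h x
  have hlen : j ≤ i + 2 := by
    by_contra hc
    obtain ⟨x, hx⟩ := hG (i + 1) (i + 2) (by omega) (by omega) (by omega)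
    have := Matrix.rank_le_card_width (cp M x (i + 1) (i + 2))
    omega
  let x' : ℕ → F := fun l => if l = i ∨ l = i + 1 then x l else a l
  have hx' : Md a 2 x' := by
    refine ⟨{i, i + 1}, Finset.card_le_two, fun l hl => ?_⟩
    simp only [Finset.mem_insert, Finset.mem_singleton] at hl
    simp [x', hl]
  have := h x' hx'
  unfold Psi at this ⊢
  rw [cp_congr (x' := x')]
  · exact this
  · intro l h1 h2
    have : l = i ∨ l = i + 1 := by omega
    simp [x', this]

end Rep

end Pool.Agent.W2helper94.PIT
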