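import Pool.Agent.W2helper94.PIT.Tens

/-!
# The generator hits every chain of bounded width (helper file)
-/

namespace Pool.Agent.W2helper94.PIT

open Matrix

variable {F : Type*} [Field F]

/-- The generator: coordinate `l` gets `∑_c y_c ∏_{j < n, j ≠ σ l} (z_c - j)`. -/
def G (n : ℕ) (σ : ℕ → ℕ) (q : ℕ) (s : ℕ ⊕ ℕ → F) : ℕ → F := fun l =>
  ∑ c ∈ Finset.range q, s (Sum.inl c) * ∏ j ∈ (Finset.range n).erase (σ l), (s (Sum.inr c) - (j : F))

theorem G_PF (n : ℕ) (σ : ℕ → ℕ) (q l : ℕ) : IsPF (fun s : ℕ ⊕ ℕ → F => G n σ q s l) := by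
  unfold G
  refine IsPF.sum _ fun c _ => (IsPF.coord _).mul (IsPF.prod _ fun j _ => ?_)
  have := (IsPF.coord (F := F) (Sum.inr c : ℕ ⊕ ℕ)).add (IsPF.const (-(j : F)))
  simpa [sub_eq_add_neg] using this

theorem G_mono (n : ℕ) (σ : ℕ → ℕ) {q q' : ℕ} (h : q ≤ q') (s : ℕ ⊕ ℕ → F) :
    ∃ s' : ℕ ⊕ ℕ → F, G n σ q' s' = G n σ q s := by
  refine ⟨Sum.elim (fun c => if c < q then s (Sum.inl c) else 0) (fun c => s (Sum.inr c)), ?_⟩
  funext l
  unfold G
  simp only [Sum.elim_inl, Sum.elim_inr]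
  rw [← Finset.sum_subset (Finset.range_mono h)]
  · refine Finset.sum_congr rfl fun c hc => ?_
    rw [if_pos (Finset.mem_range.mp hc)]
  · intro c _ hc
    rw [if_neg (by simpa using hc), zero_mul]

theorem G_add [CharZero F] {n : ℕ} {σ : ℕ → ℕ} (hσ : ∀ l < n, σ l < n)
    (hinj : ∀ l < n, ∀ l' < n, σ l = σ l' → l = l') (q : ℕ) (s : ℕ ⊕ ℕ → F) :
    ∀ N : ℕ, ∀ x : ℕ → F, Md (G n σ q s) N x → ∃ s' : ℕ ⊕ ℕ → F,
      ∀ l < n, G n σ (q + N) s' l = x l := by
  intro N
  induction N with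
  | zero =>
    intro x hx
    obtain ⟨S, hS, hx⟩ := hx
    have hS0 : S = ∅ := Finset.card_eq_zero.mp (by omega)
    subst hS0
    exact ⟨s, fun l _ => (hx l (by simp)).symm⟩
  | succ N ih =>
    intro x hx
    obtain ⟨S, hS, hx⟩ := hx
    rcases S.eq_empty_or_nonempty with hS0 | ⟨l0, hl0⟩
    · subst hS0
      obtain ⟨s', hs'⟩ := G_mono n σ (Nat.le_add_right q (N + 1)) s
      exact ⟨s', fun l _ => by rw [hs', hx l (by simp)]⟩
    · obtain ⟨s1, hs1⟩ := ih (Function.update x l0 (G n σ q s l0)) (by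
        refine ⟨S.erase l0, ?_, fun l hl => ?_⟩
        · rw [Finset.card_erase_of_mem hl0]
          omega
        · by_cases h : l = l0
          · subst h
            simp
          · rw [Function.update_of_ne h]
            exact hx l fun hl' => hl (Finset.mem_erase.mpr ⟨h, hl'⟩))
      by_cases hn : l0 < n
      · let D : F := ∏ j ∈ (Finset.range n).erase (σ l0), ((σ l0 : F) - (j : F))
        have hD : D ≠ 0 := by
          apply Finset.prod_ne_zero_iff.mpr
          intro j hj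
          rw [Finset.mem_erase] at hj
          rw [sub_ne_zero]
          exact fun h => hj.1 (Nat.cast_injective h).symm
        refine ⟨Sum.elim
          (fun c => if c < q + N then s1 (Sum.inl c) else (x l0 - G n σ q s l0) / D)
          (fun c => if c < q + N then s1 (Sum.inr c) else (σ l0 : F)), fun l hl => ?_⟩
        have hstep : G n σ (q + (N + 1)) (Sum.elim
          (fun c => if c < q + N then s1 (Sum.inl c) else (x l0 - G n σ q s l0) / D)
          (fun c => if c < q + N then s1 (Sum.inr c) else (σ l0 : F))) l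
            = G n σ (q + N) s1 l + (x l0 - G n σ q s l0) / D *
              ∏ j ∈ (Finset.range n).erase (σ l), ((σ l0 : F) - (j : F)) := by
          unfold G
          rw [← Nat.add_assoc, Finset.sum_range_succ]
          congr 1
          · refine Finset.sum_congr rfl fun c hc => ?_
            rw [Finset.mem_range] at hc
            simp only [Sum.elim_inl, Sum.elim_inr, if_pos hc]
          · simp only [Sum.elim_inl, Sum.elim_inr, lt_irrefl, if_false]
        rw [hstep, hs1 l hl]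
        by_cases h : l = l0
        · subst h
          rw [Function.update_self]
          show _ + _ / D * D = _
          rw [div_mul_cancel₀ _ hD]
          ring
        · rw [Function.update_of_ne h]
          have : ∏ j ∈ (Finset.range n).erase (σ l), ((σ l0 : F) - (j : F)) = 0 := by
            apply Finset.prod_eq_zero (i := σ l0)
            · rw [Finset.mem_erase, Finset.mem_range]
              exact ⟨fun h' => h (hinj l hl l0 hn h'.symm), hσ l0 hn⟩
            · simp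
          rw [this, mul_zero, add_zero]
      · obtain ⟨s', hs'⟩ := G_mono n σ (Nat.le_succ (q + N)) s1
        refine ⟨s', fun l hl => ?_⟩
        have : G n σ (q + (N + 1)) s' = G n σ (q + N) s1 := hs'
        rw [this, hs1 l hl, Function.update_of_ne (by omega)]

variable {m : Type} [Fintype m] [DecidableEq m] {M : ℕ → F → Matrix m m F}

theorem exists_mu (hM : ∀ l, ∀ a b, ∃ p : Polynomial F, ∀ t, p.eval t = M l t a b) (ρ i j : ℕ) :
    ∃ μ : (ℕ → F) → F, IsPF μ ∧ (∃ x, μ x ≠ 0) ∧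
      (GeR M ρ i j → ∀ x, μ x ≠ 0 → ρ ≤ (cp M x i j).rank) ∧
      ((∃ y v : (Fin ρ → m) → F, ∀ x, μ x = Psi (tensRep F m ρ) M y v i j x) ∨ ∀ x, μ x = 1) := by
  by_cases h : GeR M ρ i j
  · obtain ⟨x, hx⟩ := h
    obtain ⟨P, Q, hPQ⟩ := exists_det_ne_zero hx
    obtain ⟨y, v, hyv⟩ := det_eq_tens P Q
    refine ⟨fun x => (P * cp M x i j * Q).det, ?_, ⟨x, hPQ⟩, ?_, Or.inl ⟨y, v, ?_⟩⟩
    · apply MPF.det
      exact ((MPF.const P).mul (cp_MPF (g := fun x => x) hM (fun l => IsPF.coord l) _ _)).mul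
        (MPF.const Q)
    · intro _ x hx
      exact le_rank_of_det_ne_zero hx
    · intro x
      exact hyv _
  · exact ⟨fun _ => 1, IsPF.const 1, ⟨fun _ => 0, one_ne_zero⟩, fun h' => absurd h' h,
      Or.inr fun _ => rfl⟩

theorem claim_mono {k : Type} [Fintype k] [DecidableEq k] {Φ : PolyRep F m k} {n : ℕ} {a : ℕ → F}
    {ρ N N' : ℕ} (h : Claim Φ M n a ρ N) (hN : N ≤ N') : Claim Φ M n a ρ N' :=
  fun i j h1 h2 h3 y v h4 => h i j h1 h2 h3 y v fun x hx => h4 x (hx.mono hN)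

variable [Infinite F]

theorem claim_all (hM : ∀ l, ∀ a b, ∃ p : Polynomial F, ∀ t, p.eval t = M l t a b)
    {k : Type} [Fintype k] [DecidableEq k] (Φ : PolyRep F m k) {n : ℕ} {a : ℕ → F} :
    ∀ t ≤ Fintype.card m, (∀ ρ, Fintype.card m + 1 - t ≤ ρ → ρ ≤ Fintype.card m → Base M n a ρ) →
      Claim Φ M n a (Fintype.card m + 1 - t) ((Fintype.card k + 1) ^ t * 2) := by
  intro t
  induction t with
  | zero =>
    intro _ _
    simpa using claim_top (M := M) Φ n a
  | succ t ih =>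
    intro ht hB
    have h1 := ih (by omega) (fun ρ h1 h2 => hB ρ (by omega) h2)
    have e : Fintype.card m + 1 - t = (Fintype.card m + 1 - (t + 1)) + 1 := by omega
    rw [e] at h1
    have := step Φ hM h1 (hB _ le_rfl (by omega))
    rw [pow_succ, mul_comm (_ ^ t) _, mul_assoc]
    exact this

/-- The generator reaches a point satisfying all base conditions. -/
theorem base_gen [CharZero F]
    (hM : ∀ l, ∀ a b, ∃ p : Polynomial F, ∀ t, p.eval t = M l t a b)
    {n : ℕ} {σ : ℕ → ℕ} (hσ : ∀ l < n, σ l < n)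
    (hinj : ∀ l < n, ∀ l' < n, σ l = σ l' → l = l') {K : ℕ}
    (hK : ∀ t ≤ Fintype.card m, ∀ ρ ≤ Fintype.card m,
      (Fintype.card (Fin ρ → m) + 1) ^ t * 2 ≤ K) :
    ∃ s : ℕ ⊕ ℕ → F, ∀ ρ, 1 ≤ ρ → ρ ≤ Fintype.card m →
      Base M n (G n σ (Fintype.card m * K) s) ρ := by
  classical
  choose μ hμPF hμ0 hμr hμf using fun ρ i j => exists_mu hM ρ i j
  -- good indices
  let good : ℕ × ℕ × ℕ → Prop := fun t => t.2.1 < t.2.2 ∧ t.2.2 ≤ n ∧
    (∀ p q, t.2.1 < p → p < q → q < t.2.2 → GeR M (t.1 + 1) p q) ∧ GeR M t.1 t.2.1 t.2.2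
  have toBase : ∀ (lo : ℕ) (q : ℕ), (∀ t : ℕ × ℕ × ℕ, lo ≤ t.1 → t.1 ≤ Fintype.card m → good t →
      ∃ s : ℕ ⊕ ℕ → F, μ t.1 t.2.1 t.2.2 (G n σ q s) ≠ 0) →
      ∃ s : ℕ ⊕ ℕ → F, (∀ ρ, lo ≤ ρ → ρ ≤ Fintype.card m → Base M n (G n σ q s) ρ) ∧
        ∀ t : ℕ × ℕ × ℕ, lo ≤ t.1 → t.1 ≤ Fintype.card m → good t →
          μ t.1 t.2.1 t.2.2 (G n σ q s) ≠ 0 := by
    intro lo q h
    let I : Finset (ℕ × ℕ × ℕ) := ((Finset.range (Fintype.card m + 1)) ×ˢ
      (Finset.range (n + 1) ×ˢ Finset.range (n + 1))).filter (fun t => lo ≤ t.1 ∧ good t)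
    obtain ⟨s, hs⟩ := IsPF.exists_common I
      (f := fun t (s : ℕ ⊕ ℕ → F) => μ t.1 t.2.1 t.2.2 (G n σ q s))
      (fun t _ => (hμPF _ _ _).comp (fun l => G_PF n σ q l))
      (fun t ht => by
        simp only [I, Finset.mem_filter, Finset.mem_product, Finset.mem_range] at ht
        exact h t ht.2.1 (by omega) ht.2.2)
    have hall : ∀ t : ℕ × ℕ × ℕ, lo ≤ t.1 → t.1 ≤ Fintype.card m → good t →
          μ t.1 t.2.1 t.2.2 (G n σ q s) ≠ 0 := by
      intro t h1 h2 h3
      apply hs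
      simp only [I, Finset.mem_filter, Finset.mem_product, Finset.mem_range]
      have := h3.1
      have := h3.2.1
      exact ⟨⟨by omega, by omega, by omega⟩, h1, h3⟩
    refine ⟨s, fun ρ h1 h2 i j hij hj hint hG => ?_, hall⟩
    exact hμr ρ i j hG _ (hall (ρ, i, j) h1 h2 ⟨hij, hj, hint, hG⟩)
  have main : ∀ t ≤ Fintype.card m, ∀ u : ℕ × ℕ × ℕ, Fintype.card m + 1 - t ≤ u.1 →
      u.1 ≤ Fintype.card m → good u →
      ∃ s : ℕ ⊕ ℕ → F, μ u.1 u.2.1 u.2.2 (G n σ (t * K) s) ≠ 0 := by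
    intro t
    induction t with
    | zero => intro _ u h1 h2; omega
    | succ t ih =>
      intro ht u h1 h2 hu
      obtain ⟨s, hsB, hsall⟩ := toBase (Fintype.card m + 1 - t) (t * K) (ih (by omega))
      by_cases hnew : Fintype.card m + 1 - t ≤ u.1
      · obtain ⟨s', hs'⟩ := G_mono n σ (q := t * K) (q' := (t + 1) * K)
          (Nat.mul_le_mul_right K (Nat.le_succ t)) s
        exact ⟨s', by rw [hs']; exact hsall u hnew h2 hu⟩
      · have hu1 : u.1 + 1 = Fintype.card m + 1 - t := by omega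
        rcases hμf u.1 u.2.1 u.2.2 with ⟨y, v, hyv⟩ | h1'
        · have hC := claim_all hM (tensRep F m u.1) t (by omega) hsB
          have hC' := claim_mono hC (hK t (by omega) u.1 h2)
          have hex : ∃ x, Md (G n σ (t * K) s) K x ∧ μ u.1 u.2.1 u.2.2 x ≠ 0 := by
            by_contra hcon
            push Not at hcon
            obtain ⟨x0, hx0⟩ := hμ0 u.1 u.2.1 u.2.2
            apply hx0
            rw [hyv]
            apply hC' u.2.1 u.2.2 hu.1.le hu.2.1
            · rw [← hu1]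
              exact hu.2.2.1
            · intro x hx
              rw [← hyv]
              exact hcon x hx
          obtain ⟨x, hx, hμx⟩ := hex
          obtain ⟨s', hs'⟩ := G_add hσ hinj _ s K x hx
          refine ⟨s', ?_⟩
          have e : (t + 1) * K = t * K + K := by ring
          rw [e]
          have : μ u.1 u.2.1 u.2.2 (G n σ (t * K + K) s') = μ u.1 u.2.1 u.2.2 x := by
            rw [hyv, hyv]
            unfold Psi
            rw [cp_congr (x := G n σ (t * K + K) s') (x' := x)]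
            intro l _ hl
            exact hs' l (lt_of_lt_of_le hl hu.2.1)
          rw [this]
          exact hμx
        · exact ⟨fun _ => 0, by rw [h1']; exact one_ne_zero⟩
  obtain ⟨s, hs, _⟩ := toBase 1 (Fintype.card m * K) (fun u h1 h2 h3 =>
    main (Fintype.card m) le_rfl u (by omega) h2 h3)
  exact ⟨s, fun ρ h1 h2 => hs ρ h1 h2⟩

/-- **The generator hits**: every nonzero function `y M_0(x_0) ⋯ M_{n-1}(x_{n-1}) v` is nonzero
somewhere on the image of the generator. -/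
theorem gen_hits [CharZero F]
    (hM : ∀ l, ∀ a b, ∃ p : Polynomial F, ∀ t, p.eval t = M l t a b)
    {n : ℕ} {σ : ℕ → ℕ} (hσ : ∀ l < n, σ l < n)
    (hinj : ∀ l < n, ∀ l' < n, σ l = σ l' → l = l') {K : ℕ}
    (hK : ∀ t ≤ Fintype.card m, ∀ ρ ≤ Fintype.card m,
      (Fintype.card (Fin ρ → m) + 1) ^ t * 2 ≤ K)
    (hK' : (Fintype.card m + 1) ^ Fintype.card m * 2 ≤ K)
    (y v : m → F) {x0 : ℕ → F} (hx0 : y ⬝ᵥ (cp M x0 0 n *ᵥ v) ≠ 0) :
    ∃ s : ℕ ⊕ ℕ → F,
      y ⬝ᵥ (cp M (G n σ ((Fintype.card m + 1) * K) s) 0 n *ᵥ v) ≠ 0 := by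
  obtain ⟨s, hs⟩ := base_gen hM hσ hinj hK
  have hC := claim_all hM (idRep F m) (Fintype.card m) le_rfl
    (fun ρ h1 h2 => hs ρ (by omega) h2)
  have e1 : Fintype.card m + 1 - Fintype.card m = 1 := by omega
  rw [e1] at hC
  have hC' := claim_mono hC hK'
  have hex : ∃ x, Md (G n σ (Fintype.card m * K) s) K x ∧ y ⬝ᵥ (cp M x 0 n *ᵥ v) ≠ 0 := by
    by_contra hcon
    push Not at hcon
    apply hx0
    refine hC' 0 n (Nat.zero_le _) le_rfl ?_ y v (fun x hx => hcon x hx) x0
    intro p q hp hpq hq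
    refine ⟨x0, ?_⟩
    by_contra hr
    have hr0 : (cp M x0 p q).rank = 0 := by omega
    have hz : cp M x0 p q = 0 := by
      have h1 : LinearMap.range (cp M x0 p q).mulVecLin = ⊥ := by
        rw [← Submodule.finrank_eq_zero (R := F)]
        exact hr0
      rw [LinearMap.range_eq_bot] at h1
      ext i j
      have h2 := congrFun (LinearMap.congr_fun h1 (Pi.single j 1)) i
      simpa using h2
    apply hx0
    rw [← cp_mul x0 (Nat.zero_le p) (hpq.trans hq).le, ← cp_mul x0 hpq.le hq.le, hz]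
    simp
  obtain ⟨x, hx, hne⟩ := hex
  obtain ⟨s', hs'⟩ := G_add hσ hinj _ s K x hx
  refine ⟨s', ?_⟩
  have e : (Fintype.card m + 1) * K = Fintype.card m * K + K := by ring
  rw [e, cp_congr (x := G n σ (Fintype.card m * K + K) s') (x' := x) (fun l _ hl => hs' l hl)]
  exact hne

end Pool.Agent.W2helper94.PIT
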