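import Pool.Agent.W2helper94.PIT.Rob

/-!
# The generator hits sums of chains read in different orders (helper file)
-/

namespace Pool.Agent.W2helper94.PIT

open Matrix

variable {F : Type*} [Field F] {m : Type} [Fintype m] [DecidableEq m]

/-- The base conditions hold wherever a nonzero polynomial function of the seeds is nonzero. -/
theorem base_gen' [Infinite F] [CharZero F] {M : ℕ → F → Matrix m m F}
    (hM : ∀ l, ∀ a b, ∃ p : Polynomial F, ∀ t, p.eval t = M l t a b)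
    {n : ℕ} {σ : ℕ → ℕ} (hσ : ∀ l < n, σ l < n)
    (hinj : ∀ l < n, ∀ l' < n, σ l = σ l' → l = l') {K : ℕ}
    (hK : ∀ t ≤ Fintype.card m, ∀ ρ ≤ Fintype.card m,
      (Fintype.card (Fin ρ → m) + 1) ^ t * 2 ≤ K) :
    ∃ B : (ℕ ⊕ ℕ → F) → F, IsPF B ∧ (∃ s, B s ≠ 0) ∧
      ∀ s, B s ≠ 0 → Full M n (G n σ (Fintype.card m * K) s) := by
  classical
  choose μ hμPF hμ0 hμr hμf using fun ρ i j => exists_mu hM ρ i j
  let good : ℕ × ℕ × ℕ → Prop := fun t => t.2.1 < t.2.2 ∧ t.2.2 ≤ n ∧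
    (∀ p q, t.2.1 < p → p < q → q < t.2.2 → GeR M (t.1 + 1) p q) ∧ GeR M t.1 t.2.1 t.2.2
  let I : ℕ → Finset (ℕ × ℕ × ℕ) := fun lo => ((Finset.range (Fintype.card m + 1)) ×ˢ
      (Finset.range (n + 1) ×ˢ Finset.range (n + 1))).filter (fun t => lo ≤ t.1 ∧ good t)
  have hI : ∀ lo (t : ℕ × ℕ × ℕ), lo ≤ t.1 → t.1 ≤ Fintype.card m → good t → t ∈ I lo := by
    intro lo t h1 h2 h3
    simp only [I, Finset.mem_filter, Finset.mem_product, Finset.mem_range]
    have := h3.1
    have := h3.2.1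
    exact ⟨⟨by omega, by omega, by omega⟩, h1, h3⟩
  have hI' : ∀ lo (t : ℕ × ℕ × ℕ), t ∈ I lo → lo ≤ t.1 ∧ t.1 ≤ Fintype.card m ∧ good t := by
    intro lo t ht
    simp only [I, Finset.mem_filter, Finset.mem_product, Finset.mem_range] at ht
    exact ⟨ht.2.1, by omega, ht.2.2⟩
  have toBase : ∀ (lo : ℕ) (q : ℕ) (s : ℕ ⊕ ℕ → F),
      (∀ t ∈ I lo, μ t.1 t.2.1 t.2.2 (G n σ q s) ≠ 0) →
      ∀ ρ, lo ≤ ρ → ρ ≤ Fintype.card m → Base M n (G n σ q s) ρ := by
    intro lo q s hall ρ h1 h2 i j hij hj hint hG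
    exact hμr ρ i j hG _ (hall (ρ, i, j) (hI lo _ h1 h2 ⟨hij, hj, hint, hG⟩))
  have common : ∀ (lo q : ℕ), (∀ t ∈ I lo, ∃ s : ℕ ⊕ ℕ → F,
      μ t.1 t.2.1 t.2.2 (G n σ q s) ≠ 0) →
      ∃ s : ℕ ⊕ ℕ → F, ∀ t ∈ I lo, μ t.1 t.2.1 t.2.2 (G n σ q s) ≠ 0 := by
    intro lo q h
    exact IsPF.exists_common (I lo)
      (f := fun t (s : ℕ ⊕ ℕ → F) => μ t.1 t.2.1 t.2.2 (G n σ q s))
      (fun t _ => (hμPF _ _ _).comp (fun l => G_PF n σ q l)) h
  have main : ∀ t ≤ Fintype.card m, ∀ u ∈ I (Fintype.card m + 1 - t),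
      ∃ s : ℕ ⊕ ℕ → F, μ u.1 u.2.1 u.2.2 (G n σ (t * K) s) ≠ 0 := by
    intro t
    induction t with
    | zero =>
      intro _ u hu
      have := hI' _ u hu
      omega
    | succ t ih =>
      intro ht u hu'
      obtain ⟨h1, h2, hu⟩ := hI' _ u hu'
      obtain ⟨s, hsall⟩ := common _ (t * K) (ih (by omega))
      have hsB := toBase _ _ s hsall
      by_cases hnew : Fintype.card m + 1 - t ≤ u.1
      · obtain ⟨s', hs'⟩ := G_mono n σ (q := t * K) (q' := (t + 1) * K)
          (Nat.mul_le_mul_right K (Nat.le_succ t)) s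
        exact ⟨s', by rw [hs']; exact hsall u (hI _ u hnew h2 hu)⟩
      · have hu1 : u.1 + 1 = Fintype.card m + 1 - t := by omega
        rcases hμf u.1 u.2.1 u.2.2 with ⟨y, v, hyv⟩ | h1'
        · have hC := claim_all hM (tensRep F m u.1) t (by omega) hsB
          have hC' := claim_mono hC (hK t (by omega) u.1 h2)
          have hex : ∃ x, Md (G n σ (t * K) s) K x ∧ μ u.1 u.2.1 u.2.2 x ≠ 0 := by
            by_contra hcon
            push Not at hcon
            obtain ⟨x0, hx0⟩ := hμ0 u.1 u.2.1 u.2.2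
            apply hx0
            rw [hyv]
            apply hC' u.2.1 u.2.2 hu.1.le hu.2.1
            · rw [← hu1]
              exact hu.2.2.1
            · intro x hx
              rw [← hyv]
              exact hcon x hx
          obtain ⟨x, hx, hμx⟩ := hex
          obtain ⟨s', hs'⟩ := G_add hσ hinj _ s K x hx
          refine ⟨s', ?_⟩
          have e : (t + 1) * K = t * K + K := by ring
          rw [e]
          have : μ u.1 u.2.1 u.2.2 (G n σ (t * K + K) s') = μ u.1 u.2.1 u.2.2 x := by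
            rw [hyv, hyv]
            unfold Psi
            rw [cp_congr (x := G n σ (t * K + K) s') (x' := x)]
            intro l _ hl
            exact hs' l (lt_of_lt_of_le hl hu.2.1)
          rw [this]
          exact hμx
        · exact ⟨fun _ => 0, by rw [h1']; exact one_ne_zero⟩
  have main' := main (Fintype.card m) le_rfl
  have e1 : Fintype.card m + 1 - Fintype.card m = 1 := by omega
  rw [e1] at main'
  refine ⟨fun s => ∏ t ∈ I 1, μ t.1 t.2.1 t.2.2 (G n σ (Fintype.card m * K) s), ?_, ?_, ?_⟩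
  · exact IsPF.prod _ fun t _ => (hμPF _ _ _).comp (fun l => G_PF n σ _ l)
  · obtain ⟨s, hs⟩ := common 1 _ main'
    exact ⟨s, Finset.prod_ne_zero_iff.mpr hs⟩
  · intro s hs
    exact full_of_le (toBase 1 _ s (Finset.prod_ne_zero_iff.mp hs))

/-- number of modifications for a sum of `c` chains -/
def Rc (w : ℕ) : ℕ → ℕ → ℕ → ℕ
  | 0 => fun _ _ => 0
  | c + 1 => R' w (Rc w c)

theorem rob_sum [Infinite F] {n : ℕ} {a : ℕ → F} : ∀ (c : ℕ) (M : Fin c → ℕ → F → Matrix m m F)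
    (_ : ∀ i l, ∀ a b, ∃ p : Polynomial F, ∀ t, p.eval t = M i l t a b)
    (σ : Fin c → Equiv.Perm ℕ) (_ : ∀ i v, (σ i).symm v < n ↔ v < n)
    (_ : ∀ i, Full (M i) n (fun l => a (σ i l))) (y v : Fin c → m → F),
    Rob a (Rc (Fintype.card m) c) (fun x => ∑ i, chainF (M i) n (σ i) (y i) (v i) x) := by
  intro c
  induction c with
  | zero =>
    intro M _ σ _ _ y v r N1 J _ _ S X γ _ _ z
    simp
  | succ c ih =>
    intro M hM σ hσ hF y v
    simp only [Fin.sum_univ_succ]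
    apply rob_add (hM 0) (hσ 0) (hF 0) (y 0) (v 0)
    · exact ih (fun i => M i.succ) (fun i => hM i.succ) (fun i => σ i.succ)
        (fun i => hσ i.succ) (fun i => hF i.succ) (fun i => y i.succ) (fun i => v i.succ)
    · intro x x' h
      refine Finset.sum_congr rfl fun i _ => ?_
      unfold chainF
      rw [cp_congr]
      intro l _ hl
      apply h
      rw [← hσ i.succ]
      simpa using hl

/-- **The generator hits sums of chains.** -/
theorem gen_hits_sum [Infinite F] [CharZero F] {n c : ℕ} {M : Fin c → ℕ → F → Matrix m m F}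
    (hM : ∀ i l, ∀ a b, ∃ p : Polynomial F, ∀ t, p.eval t = M i l t a b)
    {σ : Fin c → Equiv.Perm ℕ} (hσ : ∀ i v, (σ i).symm v < n ↔ v < n) {K : ℕ}
    (hK : ∀ t ≤ Fintype.card m, ∀ ρ ≤ Fintype.card m,
      (Fintype.card (Fin ρ → m) + 1) ^ t * 2 ≤ K)
    (y v : Fin c → m → F) {x0 : ℕ → F} (hx0 : ∑ i, chainF (M i) n (σ i) (y i) (v i) x0 ≠ 0) :
    ∃ s : ℕ ⊕ ℕ → F, ∑ i, chainF (M i) n (σ i) (y i) (v i)
      (G n id (Fintype.card m * K + Rc (Fintype.card m) c 1 0) s) ≠ 0 := by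
  have hσ' : ∀ i, ∀ l < n, σ i l < n := fun i l hl => by
    rw [← hσ i]
    simpa using hl
  have hbase : ∀ i, ∃ B : (ℕ ⊕ ℕ → F) → F, IsPF B ∧ (∃ s, B s ≠ 0) ∧
      ∀ s, B s ≠ 0 → Full (M i) n (G n (σ i) (Fintype.card m * K) s) :=
    fun i => base_gen' (hM i) (hσ' i) (fun l _ l' _ h => (σ i).injective h) hK
  choose B hB hB0 hBF using hbase
  obtain ⟨s, hs⟩ := IsPF.exists_common Finset.univ (fun i _ => hB i) (fun i _ => hB0 i)
  let a : ℕ → F := G n id (Fintype.card m * K) s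
  have hF : ∀ i, Full (M i) n (fun l => a (σ i l)) := fun i => hBF i s (hs i (Finset.mem_univ i))
  have hrob := rob_sum (a := a) c M hM σ hσ hF y v
  have hex : ∃ x, Md a (Rc (Fintype.card m) c 1 0) x ∧
      ∑ i, chainF (M i) n (σ i) (y i) (v i) x ≠ 0 := by
    by_contra hcon
    push Not at hcon
    apply hx0
    have := hrob 1 0 Unit (by simp) ∅ (fun _ => a) (fun _ => 1) (fun _ => Md.self a 0) (by
      intro z hz
      have e : ovr ∅ a z = z := by
        funext l
        unfold ovr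
        simp
      simp only [Finset.univ_unique, Finset.sum_singleton, one_mul, e]
      exact hcon z hz) x0
    have e : ovr ∅ a x0 = x0 := by
      funext l
      unfold ovr
      simp
    simpa [e] using this
  obtain ⟨x, hx, hne⟩ := hex
  obtain ⟨s', hs'⟩ := G_add (n := n) (σ := id) (fun l hl => hl) (fun l _ l' _ h => h) _ s _ x hx
  refine ⟨s', ?_⟩
  intro h0
  apply hne
  rw [← h0]
  refine Finset.sum_congr rfl fun i _ => ?_
  unfold chainF
  rw [cp_congr]
  intro l _ hl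
  exact (hs' (σ i l) (hσ' i l hl)).symm

end Pool.Agent.W2helper94.PIT
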