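import Pool.Agent.W2helper94.PIT.Sum

/-!
# Robust functions; adding a chain in another order (helper file)
-/

namespace Pool.Agent.W2helper94.PIT

open Matrix

variable {F : Type*} [Field F] {m : Type} [Fintype m] [DecidableEq m] {M : ℕ → F → Matrix m m F}

/-- robustness: combinations of restrictions of `f` which vanish after few modifications vanish -/
def Rob (a : ℕ → F) (R : ℕ → ℕ → ℕ) (f : (ℕ → F) → F) : Prop :=
  ∀ (r N1 : ℕ) (J : Type) [Fintype J], Fintype.card J ≤ r → ∀ (S : Set ℕ) (X : J → ℕ → F)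
    (γ : J → F), (∀ e, Md a N1 (X e)) →
    (∀ z, Md a (R r N1) z → ∑ e, γ e * f (ovr S (X e) z) = 0) →
      ∀ z, ∑ e, γ e * f (ovr S (X e) z) = 0

/-- the function computed by a chain reading the variables in the order `σ` -/
def chainF (M : ℕ → F → Matrix m m F) (n : ℕ) (σ : Equiv.Perm ℕ) (y v : m → F) (x : ℕ → F) : F :=
  y ⬝ᵥ (cp M (fun l => x (σ l)) 0 n *ᵥ v)

theorem exists_rep {V : Type*} [AddCommGroup V] [Module F V] [FiniteDimensional F V] {T : Set V}
    {v : V} (hv : v ∈ Submodule.span F T) :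
    ∃ (s : ℕ) (t : Fin s → V) (α : Fin s → F), s ≤ Module.finrank F V ∧ (∀ j, t j ∈ T) ∧
      v = ∑ j, α j • t j := by
  obtain ⟨b, hbT, hspan, hlin⟩ := exists_linearIndependent F T
  have hfin : b.Finite := hlin.setFinite
  have := hfin.fintype
  rw [← hspan] at hv
  have hcard : Fintype.card b ≤ Module.finrank F V := hlin.fintype_card_le_finrank
  have hrange : Set.range (Subtype.val : b → V) = b := Subtype.range_coe
  rw [← hrange, Submodule.mem_span_range_iff_exists_fun] at hv
  obtain ⟨c, hc⟩ := hv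
  let e := Fintype.equivFin b
  refine ⟨Fintype.card b, fun j => (e.symm j : V), fun j => c (e.symm j), hcard,
    fun j => hbT (e.symm j).2, ?_⟩
  rw [← hc]
  exact (Equiv.sum_comp e.symm (fun x : b => c x • (x : V))).symm

/-- mixing two points along the order `σ` -/
def mx (σ : Equiv.Perm ℕ) (c : ℕ) (Z z : ℕ → F) : ℕ → F :=
  fun v => if σ.symm v < c then Z v else z v

omit [Field F] in
theorem Md.mx {σ : Equiv.Perm ℕ} {a x z : ℕ → F} {k k' : ℕ} (c : ℕ) (hx : Md a k x)
    (hz : Md a k' z) : Md a (k + k') (mx σ c x z) := by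
  classical
  obtain ⟨S, hS, h⟩ := hx
  obtain ⟨S', hS', h'⟩ := hz
  refine ⟨S ∪ S', (Finset.card_union_le _ _).trans (by omega), fun l hl => ?_⟩
  rw [Finset.mem_union, not_or] at hl
  unfold PIT.mx
  split_ifs
  · exact h l hl.1
  · exact h' l hl.2

omit [Field F] in
theorem Md.ovr {S : Set ℕ} {a x z : ℕ → F} {k k' : ℕ} (hx : Md a k x)
    (hz : Md a k' z) : Md a (k + k') (ovr S x z) := by
  classical
  obtain ⟨T, hS, h⟩ := hx
  obtain ⟨T', hS', h'⟩ := hz
  refine ⟨T ∪ T', (Finset.card_union_le _ _).trans (by omega), fun l hl => ?_⟩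
  rw [Finset.mem_union, not_or] at hl
  unfold PIT.ovr
  split_ifs
  · exact h l hl.1
  · exact h' l hl.2

omit [Field F] in
theorem Md.update {a : ℕ → F} (l : ℕ) (t : F) : Md a 1 (Function.update a l t) := by
  refine ⟨{l}, by simp, fun l' hl' => ?_⟩
  rw [Function.update_of_ne (by simpa using hl')]

omit [Field F] in
theorem Md.comp {a x : ℕ → F} {k : ℕ} (σ : Equiv.Perm ℕ) (h : Md a k x) :
    Md (fun l => a (σ l)) k (fun l => x (σ l)) := by
  classical
  obtain ⟨S, hS, h⟩ := h
  refine ⟨S.image σ.symm, Finset.card_image_le.trans hS, fun l hl => ?_⟩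
  apply h
  intro h'
  exact hl (Finset.mem_image.mpr ⟨σ l, h', by simp⟩)

omit [Field F] in
theorem Md.comp_symm {a x : ℕ → F} {k : ℕ} (σ : Equiv.Perm ℕ) (h : Md (fun l => a (σ l)) k x) :
    Md a k (fun v => x (σ.symm v)) := by
  have := h.comp σ.symm
  simpa using this

/-- number of modifications for the rows -/
def R1 (w r N1 : ℕ) : ℕ := (r * N1 + 1) * N0 w r

/-- number of modifications after adding a chain -/
def R' (w : ℕ) (R : ℕ → ℕ → ℕ) (r N1 : ℕ) : ℕ :=
  R1 w r N1 + 1 + R (r * ((w * r + 1) + (w * r + 1))) (N1 + (R1 w r N1 + 1))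

theorem N0_mono (w : ℕ) {r r' : ℕ} (h : r ≤ r') : N0 w r ≤ N0 w r' := by
  unfold N0
  gcongr

/-- the vector of rows at the cut `c` -/
noncomputable def rowv (M : ℕ → F → Matrix m m F) (σ : Equiv.Perm ℕ) (y : m → F) {J : Type}
    (S : Set ℕ) (X : J → ℕ → F) (c : ℕ) (Z : ℕ → F) : J × m → F :=
  fun t => (y ᵥ* cp M (fun l => ovr S (X t.1) Z (σ l)) 0 c) t.2

variable [Infinite F]

theorem rowv_span (hM : ∀ l, ∀ a b, ∃ p : Polynomial F, ∀ t, p.eval t = M l t a b)
    {n : ℕ} {σ : Equiv.Perm ℕ} {a : ℕ → F} (hF : Full M n (fun l => a (σ l)))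
    (y : m → F) {r N1 : ℕ} {J : Type} [Fintype J] (hJ : Fintype.card J ≤ r)
    (S : Set ℕ) {X : J → ℕ → F} (hX : ∀ e, Md a N1 (X e)) {c : ℕ} (hc : c ≤ n) (Z : ℕ → F) :
    rowv M σ y S X c Z ∈ Submodule.span F
      {u : J × m → F | ∃ Z', Md a (R1 (Fintype.card m) r N1) Z' ∧ u = rowv M σ y S X c Z'} := by
  classical
  by_contra hnot
  obtain ⟨f, hf, hker⟩ := Submodule.exists_le_ker_of_notMem hnot
  let η : J → m → F := fun e i => f (fun j => if (e, i) = j then 1 else 0)
  have hfη : ∀ Z, f (rowv M σ y S X c Z) =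
      ∑ e, y ⬝ᵥ (cp M (fun l => ovr S (X e) Z (σ l)) 0 c *ᵥ η e) := by
    intro Z
    rw [LinearMap.pi_apply_eq_sum_univ f, Fintype.sum_prod_type]
    refine Finset.sum_congr rfl fun e _ => ?_
    rw [Matrix.dotProduct_mulVec]
    rfl
  choose T hT hTX using hX
  let E : Finset ℕ := Finset.univ.biUnion fun e => (T e).image σ.symm
  have hE : E.card ≤ r * N1 := by
    refine Finset.card_biUnion_le.trans ?_
    have : ∀ e ∈ (Finset.univ : Finset J), ((T e).image σ.symm).card ≤ N1 :=
      fun e _ => Finset.card_image_le.trans (hT e)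
    refine (Finset.sum_le_card_nsmul _ _ _ this).trans ?_
    rw [Finset.card_univ, smul_eq_mul]
    exact Nat.mul_le_mul_right _ hJ
  have hovr : ∀ e (Z : ℕ → F), (fun l => ovr S (X e) Z (σ l)) =
      ovr {l | σ l ∈ S} (fun l => X e (σ l)) (fun l => Z (σ l)) := by
    intro e Z
    funext l
    unfold ovr
    by_cases h : σ l ∈ S
    · rw [if_pos h, if_pos (by exact h)]
    · rw [if_neg h, if_neg (by exact h)]
  rw [hfη] at hf
  simp only [hovr] at hf
  obtain ⟨x, hx, hne⟩ := rob_chain hM hF {l | σ l ∈ S} (fun e l => X e (σ l)) (fun _ => y)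
    (r * N1) c hc E hE (by
      intro e l _ _ hl
      apply hTX e
      intro h'
      apply hl
      simp only [E, Finset.mem_biUnion, Finset.mem_univ, true_and, Finset.mem_image]
      exact ⟨e, σ l, h', by simp⟩) η _ hf
  apply hne
  have hx' := (hx.comp_symm σ).mono (k' := R1 (Fintype.card m) r N1)
    (Nat.mul_le_mul_left _ (N0_mono _ hJ))
  have hmem : rowv M σ y S X c (fun v => x (σ.symm v)) ∈ LinearMap.ker f :=
    hker (Submodule.subset_span ⟨_, hx', rfl⟩)
  rw [LinearMap.mem_ker, hfη] at hmem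
  rw [← hmem]
  refine Finset.sum_congr rfl fun e _ => ?_
  rw [hovr]
  simp

omit [Infinite F] in
theorem chainF_split {n : ℕ} {σ : Equiv.Perm ℕ} (y v : m → F) {J : Type}
    (S : Set ℕ) (X : J → ℕ → F) {c : ℕ} (hc : c ≤ n) (Z z : ℕ → F) (e : J) :
    chainF M n σ y v (ovr S (X e) (mx σ c Z z)) =
      ∑ i, rowv M σ y S X c Z (e, i) *
        (cp M (fun l => ovr S (X e) z (σ l)) c n *ᵥ v) i := by
  unfold chainF rowv
  rw [← cp_mul _ (Nat.zero_le c) hc, ← Matrix.mulVec_mulVec, Matrix.dotProduct_mulVec]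
  have h1 : cp M (fun l => ovr S (X e) (mx σ c Z z) (σ l)) 0 c =
      cp M (fun l => ovr S (X e) Z (σ l)) 0 c := by
    apply cp_congr
    intro l _ hl
    unfold ovr mx
    simp [hl]
  have h2 : cp M (fun l => ovr S (X e) (mx σ c Z z) (σ l)) c n =
      cp M (fun l => ovr S (X e) z (σ l)) c n := by
    apply cp_congr
    intro l hl _
    unfold ovr mx
    simp [Nat.not_lt.mpr hl]
  rw [h1, h2]
  rfl

omit [Infinite F] in
theorem rowv_succ {σ : Equiv.Perm ℕ} (y : m → F) {J : Type}
    (S : Set ℕ) (X : J → ℕ → F) (c : ℕ) (Z : ℕ → F) (e : J) (j : m) :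
    rowv M σ y S X (c + 1) Z (e, j) =
      ∑ i, rowv M σ y S X c Z (e, i) * M c (ovr S (X e) Z (σ c)) i j := by
  unfold rowv
  rw [← cp_mul _ (Nat.zero_le c) (Nat.le_succ c), ← Matrix.vecMul_vecMul]
  have : cp M (fun l => ovr S (X e) Z (σ l)) c (c + 1) = M c (ovr S (X e) Z (σ c)) := by
    unfold cp
    simp
  rw [Nat.succ_eq_add_one, this]
  rfl

omit [Infinite F] in
theorem rowv_congr {σ : Equiv.Perm ℕ} (y : m → F) {J : Type}
    (S : Set ℕ) (X : J → ℕ → F) (c : ℕ) {Z Z' : ℕ → F} (h : ∀ v, σ.symm v < c → Z v = Z' v) :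
    rowv M σ y S X c Z = rowv M σ y S X c Z' := by
  funext t
  unfold rowv
  rw [cp_congr]
  intro l _ hl
  unfold ovr
  rw [h (σ l) (by simpa using hl)]

/-- **Adding a chain in a new order keeps robustness.** -/
theorem rob_add (hM : ∀ l, ∀ a b, ∃ p : Polynomial F, ∀ t, p.eval t = M l t a b)
    {n : ℕ} {σ : Equiv.Perm ℕ} (hσ : ∀ v, σ.symm v < n ↔ v < n) {a : ℕ → F}
    (hF : Full M n (fun l => a (σ l)))
    (y v : m → F) {g : (ℕ → F) → F} {R : ℕ → ℕ → ℕ} (hg : Rob a R g)
    (hgn : ∀ x x' : ℕ → F, (∀ l < n, x l = x' l) → g x = g x') :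
    Rob a (R' (Fintype.card m) R) (fun x => chainF M n σ y v x + g x) := by
  classical
  intro r N1 J _ hJ S X γ hX hfew
  set w := Fintype.card m with hw
  set N2 := R1 w r N1 with hN2
  -- abbreviations
  let g' : (ℕ → F) → F := fun x => ∑ e, γ e * g (ovr S (X e) x)
  let D : (ℕ → F) → F := fun x => ∑ e, γ e * (chainF M n σ y v (ovr S (X e) x) + g (ovr S (X e) x))
  let A' : (ℕ → F) → F := fun x => ∑ e, γ e * chainF M n σ y v (ovr S (X e) x)
  have hD : ∀ x, D x = A' x + g' x := by
    intro x
    simp only [D, A', g', mul_add, Finset.sum_add_distrib]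
  have hfew' : ∀ z, Md a (R' w R r N1) z → D z = 0 := hfew
  -- linear functional giving `A'`
  let L : ℕ → (ℕ → F) → (J × m → F) → F := fun c z u =>
    ∑ e, γ e * ∑ i, u (e, i) * (cp M (fun l => ovr S (X e) z (σ l)) c n *ᵥ v) i
  have hA'L : ∀ c ≤ n, ∀ Z z, A' (mx σ c Z z) = L c z (rowv M σ y S X c Z) := by
    intro c hc Z z
    simp only [A', L, chainF_split y v S X hc Z z]
  have hLsum : ∀ (c : ℕ) (z : ℕ → F) {K : Type} [Fintype K] (α : K → F) (u : K → J × m → F),
      L c z (∑ k, α k • u k) = ∑ k, α k * L c z (u k) := by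
    intro c z K _ α u
    simp only [L, Finset.sum_apply, Pi.smul_apply, smul_eq_mul, Finset.sum_mul, Finset.mul_sum]
    trans ∑ e, ∑ k, ∑ i, γ e * (α k * u k (e, i) *
        (cp M (fun l => ovr S (X e) z (σ l)) c n *ᵥ v) i)
    · exact Finset.sum_congr rfl fun e _ => Finset.sum_comm
    rw [Finset.sum_comm]
    refine Finset.sum_congr rfl fun k _ => Finset.sum_congr rfl fun e _ =>
      Finset.sum_congr rfl fun i _ => by ring
  -- the main induction
  have main : ∀ c ≤ n, ∀ Z : ℕ → F, ∃ (s : ℕ) (Z' : Fin s → ℕ → F) (α : Fin s → F),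
      s ≤ w * r + 1 ∧ (∀ j, Md a N2 (Z' j)) ∧
      rowv M σ y S X c Z = ∑ j, α j • rowv M σ y S X c (Z' j) ∧
      ∀ z, g' (mx σ c Z z) = ∑ j, α j * g' (mx σ c (Z' j) z) := by
    intro c
    induction c with
    | zero =>
      intro _ Z
      refine ⟨1, fun _ => a, fun _ => 1, by omega, fun _ => Md.self a _, ?_, ?_⟩
      · simp only [Finset.univ_unique, Finset.sum_singleton, one_smul]
        exact rowv_congr y S X 0 (fun v hv => absurd hv (Nat.not_lt_zero _))
      · intro z
        simp only [Finset.univ_unique, Finset.sum_singleton, one_mul]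
        rfl
    | succ c ih =>
      intro hc Z
      obtain ⟨s, Z1, α, hs, hZ1, hrow1, hg1⟩ := ih (by omega) Z
      -- extended assignments
      let Zp : Fin s → ℕ → F := fun j => mx σ c (Z1 j) (Function.update a (σ c) (Z (σ c)))
      have hZp : ∀ j, Md a (N2 + 1) (Zp j) := fun j => (hZ1 j).mx c (Md.update _ _)
      have hrowp : rowv M σ y S X (c + 1) Z = ∑ j, α j • rowv M σ y S X (c + 1) (Zp j) := by
        funext t
        obtain ⟨e, i⟩ := t
        rw [rowv_succ, hrow1]
        simp only [Finset.sum_apply, Pi.smul_apply, smul_eq_mul]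
        have h1 : ∀ j, rowv M σ y S X (c + 1) (Zp j) (e, i) =
            ∑ i', rowv M σ y S X c (Z1 j) (e, i') * M c (ovr S (X e) Z (σ c)) i' i := by
          intro j
          rw [rowv_succ, rowv_congr (Z := Zp j) (Z' := Z1 j) y S X c (fun v hv => by
            simp only [Zp, mx, hv, if_true])]
          have h2 : ovr S (X e) (Zp j) (σ c) = ovr S (X e) Z (σ c) := by
            unfold ovr
            simp [Zp, mx]
          rw [h2]
        simp only [h1, Finset.sum_mul, Finset.mul_sum]
        rw [Finset.sum_comm]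
        refine Finset.sum_congr rfl fun j _ => Finset.sum_congr rfl fun i' _ => by ring
      have hgp : ∀ z, g' (mx σ (c + 1) Z z) = ∑ j, α j * g' (mx σ (c + 1) (Zp j) z) := by
        intro z
        have e1 : mx σ c Z (mx σ (c + 1) Z z) = mx σ (c + 1) Z z := by
          funext v
          simp only [mx]
          split_ifs <;> first | rfl | omega
        have e2 : ∀ j, mx σ c (Z1 j) (mx σ (c + 1) Z z) = mx σ (c + 1) (Zp j) z := by
          intro j
          funext v
          simp only [mx, Zp]
          split_ifs with h1 h2 h3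
          · rfl
          · omega
          · have hv : σ.symm v = c := by omega
            have hv' : v = σ c := by rw [← hv]; simp
            rw [hv']
            simp
          · rfl
        have := hg1 (mx σ (c + 1) Z z)
        rw [e1] at this
        rw [this]
        refine Finset.sum_congr rfl fun j _ => by rw [e2]
      -- new representation
      obtain ⟨s', t, β, hs', ht, hrow'⟩ := exists_rep (rowv_span hM hF y hJ S hX hc Z)
      choose Z' hZ' htZ' using ht
      have hs'' : s' ≤ w * r + 1 := by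
        rw [Module.finrank_fintype_fun_eq_card, Fintype.card_prod] at hs'
        have : Fintype.card J * Fintype.card m ≤ w * r := by
          rw [mul_comm]
          exact Nat.mul_le_mul_left _ hJ
        omega
      have hrowβ : rowv M σ y S X (c + 1) Z = ∑ j, β j • rowv M σ y S X (c + 1) (Z' j) := by
        rw [hrow']
        refine Finset.sum_congr rfl fun j _ => by rw [htZ' j]
      refine ⟨s', Z', β, hs'', hZ', hrowβ, ?_⟩
      -- the difference vanishes
      let ZZ : Fin s ⊕ Fin s' → ℕ → F := Sum.elim Zp Z'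
      let cc : Fin s ⊕ Fin s' → F := Sum.elim α (fun j => -β j)
      have hZZ : ∀ t, Md a (N2 + 1) (ZZ t) := by
        rintro (j | j)
        · exact hZp j
        · exact (hZ' j).mono (Nat.le_succ _)
      have hcomb : ∀ z, ∑ t, cc t * g' (mx σ (c + 1) (ZZ t) z) =
          ∑ j, α j * g' (mx σ (c + 1) (Zp j) z) - ∑ j, β j * g' (mx σ (c + 1) (Z' j) z) := by
        intro z
        rw [Fintype.sum_sum_type]
        simp only [cc, ZZ, Sum.elim_inl, Sum.elim_inr, neg_mul, Finset.sum_neg_distrib]
        ring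
      have hrows0 : ∑ t, cc t • rowv M σ y S X (c + 1) (ZZ t) = 0 := by
        rw [Fintype.sum_sum_type]
        simp only [cc, ZZ, Sum.elim_inl, Sum.elim_inr, neg_smul, Finset.sum_neg_distrib]
        rw [← hrowp, ← hrowβ]
        exact add_neg_cancel _
      have hvan : ∀ z, ∑ t, cc t * g' (mx σ (c + 1) (ZZ t) z) = 0 := by
        -- rewrite as a combination of restrictions of `g`
        have hre : ∀ z, ∑ t, cc t * g' (mx σ (c + 1) (ZZ t) z) =
            ∑ q : J × (Fin s ⊕ Fin s'), (γ q.1 * cc q.2) *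
              g (ovr (S ∪ {v | σ.symm v < c + 1}) (ovr S (X q.1) (ZZ q.2)) z) := by
          intro z
          rw [Fintype.sum_prod_type, Finset.sum_comm]
          refine Finset.sum_congr rfl fun t _ => ?_
          simp only [g', Finset.mul_sum]
          refine Finset.sum_congr rfl fun e _ => ?_
          have e3 : ovr (S ∪ {v | σ.symm v < c + 1}) (ovr S (X e) (ZZ t)) z =
              ovr S (X e) (mx σ (c + 1) (ZZ t) z) := by
            funext v
            by_cases h1 : v ∈ S
            · rw [ovr_mem (Set.mem_union_left _ h1), ovr_mem h1, ovr_mem h1]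
            · by_cases h2 : σ.symm v < c + 1
              · have h2' : v ∈ S ∪ {v | σ.symm v < c + 1} := Or.inr h2
                rw [ovr_mem h2', ovr_notMem h1, ovr_notMem h1]
                unfold mx
                rw [if_pos h2]
              · have h3 : v ∉ S ∪ {v | σ.symm v < c + 1} := by
                  rintro (h | h)
                  · exact h1 h
                  · exact h2 h
                rw [ovr_notMem h3, ovr_notMem h1]
                unfold mx
                rw [if_neg h2]
          rw [e3]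
          ring
        simp only [hre]
        apply hg (r * ((w * r + 1) + (w * r + 1))) (N1 + (N2 + 1))
        · rw [Fintype.card_prod, Fintype.card_sum, Fintype.card_fin, Fintype.card_fin]
          exact Nat.mul_le_mul hJ (by omega)
        · rintro ⟨e, t⟩
          exact (hX e).ovr (hZZ t)
        · intro z hz
          rw [← hre]
          have h1 : ∀ t, g' (mx σ (c + 1) (ZZ t) z) =
              D (mx σ (c + 1) (ZZ t) z) - A' (mx σ (c + 1) (ZZ t) z) := by
            intro t
            rw [hD]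
            ring
          simp only [h1, mul_sub, Finset.sum_sub_distrib]
          have h2 : ∀ t, D (mx σ (c + 1) (ZZ t) z) = 0 := by
            intro t
            apply hfew'
            exact ((hZZ t).mx (c + 1) hz).mono (by unfold R'; rw [← hN2])
          simp only [h2, mul_zero, Finset.sum_const_zero, zero_sub, neg_eq_zero]
          simp only [hA'L (c + 1) hc]
          rw [← hLsum, hrows0]
          simp [L]
      intro z
      have := hvan z
      rw [hcomb, sub_eq_zero] at this
      rw [hgp z, this]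
  -- conclusion
  intro Z
  obtain ⟨s, Z', α, _, hZ', hrow, hgg⟩ := main n le_rfl Z
  have h1 : D (mx σ n Z a) = ∑ j, α j * D (mx σ n (Z' j) a) := by
    simp only [hD, mul_add, Finset.sum_add_distrib, hgg a, hA'L n le_rfl]
    rw [hrow, hLsum]
  have h2 : ∀ j, D (mx σ n (Z' j) a) = 0 := by
    intro j
    apply hfew'
    exact ((hZ' j).mx n (Md.self a 0)).mono (by unfold R'; omega)
  have h3 : D Z = D (mx σ n Z a) := by
    simp only [D]
    refine Finset.sum_congr rfl fun e _ => ?_
    have e1 : g (ovr S (X e) Z) = g (ovr S (X e) (mx σ n Z a)) := by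
      apply hgn
      intro l hl
      unfold ovr mx
      simp [(hσ l).mpr hl]
    have e2 : chainF M n σ y v (ovr S (X e) Z) = chainF M n σ y v (ovr S (X e) (mx σ n Z a)) := by
      unfold chainF
      rw [cp_congr]
      intro l _ hl
      unfold ovr mx
      simp [hl]
    rw [e1, e2]
  show D Z = 0
  rw [h3, h1]
  simp [h2]

end Pool.Agent.W2helper94.PIT
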