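import Pool.Agent.W2helper94.PIT.Chain

/-!
# The induction step (helper file)

If few modifications suffice for chains all of whose inner products have rank at least `ρ + 1`,
then few modifications suffice for chains all of whose inner products have rank at least `ρ`.
-/

namespace Pool.Agent.W2helper94.PIT

open Matrix

variable {F : Type*} [Field F] {m : Type} [Fintype m] [DecidableEq m]
  {M : ℕ → F → Matrix m m F} {k : Type} [Fintype k] [DecidableEq k]

/-- the row vector `y Φ(M_i ⋯ M_{e-1})` -/
def Rw (Φ : PolyRep F m k) (M : ℕ → F → Matrix m m F) (y : k → F) (i e : ℕ) (x : ℕ → F) : k → F :=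
  y ᵥ* Φ.toFun (cp M x i e)

theorem Psi_split (Φ : PolyRep F m k) (y v : k → F) {i c e : ℕ} (h1 : i ≤ c) (h2 : c ≤ e)
    (x z : ℕ → F) :
    Rw Φ M y i e (mix c x z) ⬝ᵥ v = Psi Φ M y (Φ.toFun (cp M z c e) *ᵥ v) i c x := by
  unfold Rw Psi
  rw [← cp_mul (mix c x z) h1 h2, map_mul,
    cp_congr (x := mix c x z) (x' := x) (i := i) (fun l _ hl => mix_lt x z hl),
    cp_congr (x := mix c x z) (x' := z) (i := c) (fun l hl _ => mix_ge x z hl),
    Matrix.mulVec_mulVec, Matrix.dotProduct_mulVec]

theorem Psi_split' (Φ : PolyRep F m k) (y v : k → F) {i c e : ℕ} (h1 : i ≤ c) (h2 : c ≤ e)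
    (x z : ℕ → F) :
    Psi Φ M y v i e (mix c x z) = Psi Φ M (y ᵥ* Φ.toFun (cp M x i c)) v c e z := by
  unfold Psi
  rw [← cp_mul (mix c x z) h1 h2, map_mul,
    cp_congr (x := mix c x z) (x' := x) (i := i) (fun l _ hl => mix_lt x z hl),
    cp_congr (x := mix c x z) (x' := z) (i := c) (fun l hl _ => mix_ge x z hl),
    ← Matrix.mulVec_mulVec, Matrix.dotProduct_mulVec]

theorem mix_idem (c : ℕ) (x : ℕ → F) : mix c x x = x := by
  funext l
  unfold mix
  split_ifs <;> rfl

theorem Psi_PF (Φ : PolyRep F m k)
    (hM : ∀ l, ∀ a b, ∃ p : Polynomial F, ∀ t, p.eval t = M l t a b) (y v : k → F) (i j : ℕ) :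
    IsPF (Psi Φ M y v i j) := by
  have h1 : MPF (fun x : ℕ → F => cp M x i j) :=
    cp_MPF (g := fun x => x) hM (fun l => IsPF.coord l) i j
  exact (Φ.pf h1).dot y v

variable [Infinite F]

/-- propagation from generic rows with few modifications to all rows -/
theorem propagate (Φ : PolyRep F m k)
    (hM : ∀ l, ∀ a b, ∃ p : Polynomial F, ∀ t, p.eval t = M l t a b)
    {i p q j t : ℕ} (hip : i ≤ p) (hpq : p ≤ q) (hqj : q ≤ j) {y v : k → F} {a : ℕ → F}
    {g : (ℕ → F) → F} (hg : IsPF g) (hg0 : ∃ b, g b ≠ 0)
    (hQ : ∀ b, g b ≠ 0 → ∀ x0 : ℕ → F,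
      (y ᵥ* Φ.toFun (cp M x0 i p)) ᵥ* Φ.toFun (cp M b p q) ∈
        Submodule.span F {r : k → F | ∃ x, Md a t x ∧
          r = (y ᵥ* Φ.toFun (cp M x i p)) ᵥ* Φ.toFun (cp M b p q)})
    (hK : ∀ x', Md a t x' → ∀ x, Psi Φ M (y ᵥ* Φ.toFun (cp M x' i p)) v p j x = 0) :
    ∀ x, Psi Φ M y v i j x = 0 := by
  intro x0
  have key : ∀ b, Psi Φ M (y ᵥ* Φ.toFun (cp M x0 i p)) v p j b = 0 := by
    apply IsPF.eq_zero_of_dense hg (Psi_PF Φ hM _ _ _ _) hg0
    intro b hb
    have hmem := hQ b hb x0
    have split : ∀ r : k → F, Psi Φ M r v p j b
        = (r ᵥ* Φ.toFun (cp M b p q)) ⬝ᵥ (Φ.toFun (cp M b q j) *ᵥ v) := by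
      intro r
      unfold Psi
      rw [← cp_mul b hpq hqj, map_mul, ← Matrix.mulVec_mulVec, Matrix.dotProduct_mulVec]
    rw [split]
    have hlin : ∀ r ∈ Submodule.span F {r : k → F | ∃ x, Md a t x ∧
          r = (y ᵥ* Φ.toFun (cp M x i p)) ᵥ* Φ.toFun (cp M b p q)},
          r ⬝ᵥ (Φ.toFun (cp M b q j) *ᵥ v) = 0 := by
      intro r hr
      induction hr using Submodule.span_induction with
      | mem r hr =>
        obtain ⟨x, hx, rfl⟩ := hr
        rw [← split]
        exact hK x hx b
      | zero => simp
      | add r s _ _ hr hs => rw [add_dotProduct, hr, hs, add_zero]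
      | smul c r _ hr => rw [smul_dotProduct, hr, smul_zero]
    exact hlin _ hmem
  have := key x0
  rw [← Psi_split' Φ y v hip (hpq.trans hqj) x0 x0, mix_idem] at this
  exact this

theorem exists_max_window {P : ℕ → Prop} {B : ℕ} (hP : ∃ p, P p) (hB : ∀ p, P p → p ≤ B) :
    ∃ p, P p ∧ ∀ p', p < p' → ¬ P p' := by
  classical
  obtain ⟨p, hp⟩ := hP
  refine ⟨Nat.findGreatest P B, Nat.findGreatest_spec (hB p hp) hp, fun p' h1 h2 => ?_⟩
  exact absurd (Nat.le_findGreatest (hB p' h2) h2) (by omega)

/-- the key lemma -/
theorem lemmaA (Φ : PolyRep F m k)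
    (hM : ∀ l, ∀ a b, ∃ p : Polynomial F, ∀ t, p.eval t = M l t a b)
    {n ρ N : ℕ} {a : ℕ → F} (hC : Claim Φ M n a (ρ + 1) N) {i e : ℕ} (he : e ≤ n) (y : k → F) :
    ∀ δ c : ℕ, ∀ z : ℕ → F, c ≤ e → ρ ≤ (cp M (mix c a z) (i + 1) e).rank →
      Module.finrank F (Submodule.span F (Set.range fun x => Rw Φ M y i e (mix c x z))) ≤ δ →
      Submodule.span F (Set.range fun x => Rw Φ M y i e (mix c x z)) ≤
        Submodule.span F {r : k → F | ∃ x, Md a (δ * N) x ∧ r = Rw Φ M y i e (mix c x z)} := by
  intro δ
  induction δ with
  | zero =>
    intro c z hc hr hfin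
    have : Submodule.span F (Set.range fun x => Rw Φ M y i e (mix c x z)) = ⊥ := by
      rw [← Submodule.finrank_eq_zero (R := F)]
      omega
    rw [this]
    exact bot_le
  | succ δ ih =>
    intro c
    induction c with
    | zero =>
      intro z _ _ _
      apply Submodule.span_mono
      rintro _ ⟨x, rfl⟩
      refine ⟨a, Md.self a _, ?_⟩
      have : mix 0 x z = mix 0 a z := by
        funext l
        simp [mix]
      simp only [this]
    | succ c ihc =>
      intro z hc hr hfin
      set za := mix (c + 1) a z with hza
      have hmixc : ∀ x, mix c x za = mix (c + 1) (mix c x a) z := by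
        intro x
        funext l
        simp only [hza, mix]
        split_ifs <;> first | rfl | omega
      have hsub : Submodule.span F (Set.range fun x => Rw Φ M y i e (mix c x za)) ≤
          Submodule.span F (Set.range fun x => Rw Φ M y i e (mix (c + 1) x z)) := by
        apply Submodule.span_mono
        rintro _ ⟨x, rfl⟩
        exact ⟨mix c x a, by simp only [hmixc]⟩
      by_cases hlt : Module.finrank F (Submodule.span F (Set.range fun x =>
          Rw Φ M y i e (mix (c + 1) x z))) ≤
          Module.finrank F (Submodule.span F (Set.range fun x => Rw Φ M y i e (mix c x za)))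
      · -- no growth
        have heq := Submodule.eq_of_le_of_finrank_le hsub hlt
        rw [← heq]
        have h1 := ihc za (by omega) (by
          have : mix c a za = mix (c + 1) a z := by
            rw [hmixc, mix_idem]
          rw [this]
          exact hr) (by rw [heq]; exact hfin)
        refine h1.trans (Submodule.span_mono ?_)
        rintro _ ⟨x, hx, rfl⟩
        exact ⟨mix c x a, hx.mix_self c, by rw [hmixc]⟩
      · push Not at hlt
        have hic : i ≤ c := by
          by_contra hcon
          push Not at hcon
          apply absurd hlt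
          rw [not_lt]
          apply Submodule.finrank_mono
          apply Submodule.span_mono
          rintro _ ⟨x, rfl⟩
          refine ⟨x, ?_⟩
          show Rw Φ M y i e _ = Rw Φ M y i e _
          unfold Rw
          rw [cp_congr]
          intro l hl _
          simp only [hza, mix]
          split_ifs <;> first | rfl | omega
        -- growth at position `c`
        intro r hrmem
        by_contra hnot
        obtain ⟨f, hf, hker⟩ := Submodule.exists_le_ker_of_notMem hnot
        let η : k → F := fun l => f (fun j => if l = j then 1 else 0)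
        have hfη : ∀ r : k → F, f r = r ⬝ᵥ η := by
          intro r
          rw [LinearMap.pi_apply_eq_sum_univ f r]
          rfl
        set v' := Φ.toFun (cp M z (c + 1) e) *ᵥ η with hv'
        have hR : ∀ x, f (Rw Φ M y i e (mix (c + 1) x z)) = Psi Φ M y v' i (c + 1) x := by
          intro x
          rw [hfη, Psi_split Φ y η (by omega) hc]
        have hfew : ∀ x, Md a ((δ + 1) * N) x → Psi Φ M y v' i (c + 1) x = 0 := by
          intro x hx
          rw [← hR]
          have : Rw Φ M y i e (mix (c + 1) x z) ∈ LinearMap.ker f :=
            hker (Submodule.subset_span ⟨x, hx, rfl⟩)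
          simpa using this
        have hall : ∀ x, Psi Φ M y v' i (c + 1) x = 0 := by
          by_cases hw : ∃ p, i < p ∧ ∃ q, p < q ∧ q ≤ c ∧ ¬ GeR M (ρ + 1) p q
          · obtain ⟨p, ⟨hip, q, hpq, hqc, hnG⟩, hmax⟩ := exists_max_window
              (P := fun p => i < p ∧ ∃ q, p < q ∧ q ≤ c ∧ ¬ GeR M (ρ + 1) p q) (B := c) hw
              (fun p hp => by obtain ⟨_, q, h1, h2, _⟩ := hp; omega)
            have hza' : mix p a (mix q a za) = mix (c + 1) a z := by
              funext l
              simp only [hza, mix]
              split_ifs <;> first | rfl | omega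
            obtain ⟨P, Q, hPQ⟩ := exists_det_ne_zero hr
            have hLe : ∀ b, (cp M b p q).rank ≤ ρ := by
              intro b
              by_contra hc
              exact hnG ⟨b, by omega⟩
            apply propagate Φ hM (i := i) (p := p) (q := q) (j := c + 1) (t := δ * N) (a := a)
              (g := fun b => (P * cp M (mix p a (mix q b za)) (i + 1) e * Q).det)
              hip.le hpq.le (by omega)
            · apply MPF.det
              refine ((MPF.const P).mul (cp_MPF hM (fun l => ?_) _ _)).mul (MPF.const Q)
              unfold mix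
              split_ifs
              · exact IsPF.const _
              · exact IsPF.coord _
              · exact IsPF.const _
            · refine ⟨a, ?_⟩
              simp only [hza']
              exact hPQ
            · intro b hb x0
              have hrk : ρ ≤ (cp M (mix p a (mix q b za)) (i + 1) e).rank :=
                le_rank_of_det_ne_zero hb
              set zb := mix q b za with hzb
              have hfin' : Module.finrank F (Submodule.span F (Set.range fun x =>
                  Rw Φ M y i e (mix p x zb))) ≤ δ := by
                have h1 : Module.finrank F (Submodule.span F (Set.range fun x =>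
                    Rw Φ M y i e (mix p x zb))) ≤
                    Module.finrank F (Submodule.span F (Set.range fun x =>
                      Rw Φ M y i e (mix c x za))) := by
                  apply Submodule.finrank_mono
                  apply Submodule.span_mono
                  rintro _ ⟨x, rfl⟩
                  refine ⟨mix p x (mix q b a), ?_⟩
                  show Rw Φ M y i e _ = Rw Φ M y i e _
                  congr 1
                  funext l
                  simp only [hzb, hza, mix]
                  split_ifs <;> first | rfl | omega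
                omega
              have hmem := ih p zb (by omega) hrk hfin'
                (Submodule.subset_span ⟨x0, rfl⟩)
              -- recover
              have hABr : ρ ≤ (cp M zb p q * cp M zb q e).rank := by
                rw [cp_mul zb hpq.le (by omega)]
                have h2 := rank_cp_mono_left (M := M) (mix p a zb) (i := i + 1) (k := p) (j := e)
                  (by omega) (by omega)
                rw [cp_congr (x := mix p a zb) (x' := zb) (i := p)
                  (fun l hl _ => mix_ge a zb hl)] at h2
                omega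
              obtain ⟨C, hCrec⟩ := exists_recover (hLe zb) hABr
              have hzbb : cp M zb p q = cp M b p q :=
                cp_congr (fun l _ hl => by rw [hzb, mix_lt _ _ hl])
              have hRC : ∀ x, Rw Φ M y i e (mix p x zb) ᵥ* Φ.toFun C =
                  (y ᵥ* Φ.toFun (cp M x i p)) ᵥ* Φ.toFun (cp M b p q) := by
                intro x
                unfold Rw
                rw [← cp_mul (mix p x zb) (k := p) hip.le (by omega),
                  cp_congr (x := mix p x zb) (x' := x) (i := i) (fun l _ hl => mix_lt x zb hl),
                  cp_congr (x := mix p x zb) (x' := zb) (i := p) (fun l hl _ => mix_ge x zb hl),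
                  ← cp_mul zb hpq.le (by omega : q ≤ e), ← hzbb, Matrix.vecMul_vecMul,
                  Matrix.vecMul_vecMul, ← map_mul, ← map_mul, Matrix.mul_assoc, hCrec]
              have := Submodule.apply_mem_span_image_of_mem_span
                (Matrix.vecMulLinear (Φ.toFun C)) hmem
              simp only [Matrix.vecMulLinear_apply] at this
              rw [hRC] at this
              refine Submodule.span_mono ?_ this
              rintro _ ⟨_, ⟨x, hx, rfl⟩, rfl⟩
              exact ⟨x, hx, hRC x⟩
            · intro x' hx'
              apply hC p (c + 1) (by omega) (by omega)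
              · intro p' q' h1 h2 h3
                by_contra hcon
                exact hmax p' h1 ⟨by omega, q', h2, by omega, hcon⟩
              · intro x hx
                rw [← Psi_split' Φ y v' hip.le (by omega : p ≤ c + 1) x' x]
                apply hfew
                have := hx'.mix p hx
                have e1 : δ * N + N = (δ + 1) * N := by ring
                rw [e1] at this
                exact this
          · push Not at hw
            apply hC i (c + 1) (by omega) (by omega)
            · intro p q h1 h2 h3
              exact hw p h1 q h2 (by omega)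
            · intro x hx
              exact hfew x (hx.mono (Nat.le_mul_of_pos_left N (by omega)))
        have hzero : Submodule.span F (Set.range fun x => Rw Φ M y i e (mix (c + 1) x z)) ≤
            LinearMap.ker f := by
          rw [Submodule.span_le]
          rintro _ ⟨x, rfl⟩
          show f _ = 0
          rw [hR]
          exact hall x
        exact hf (by simpa using hzero hrmem)

theorem step (Φ : PolyRep F m k)
    (hM : ∀ l, ∀ a b, ∃ p : Polynomial F, ∀ t, p.eval t = M l t a b)
    {n ρ N : ℕ} {a : ℕ → F} (hC : Claim Φ M n a (ρ + 1) N) (hB : Base M n a ρ) :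
    Claim Φ M n a ρ ((Fintype.card k + 1) * N) := by
  intro i j hij hjn hG y v h
  by_cases hw : ∃ p, i < p ∧ ∃ q, p < q ∧ q < j ∧ ¬ GeR M (ρ + 1) p q
  · obtain ⟨p, ⟨hip, q, hpq, hqj, hnG⟩, hmax⟩ := exists_max_window
      (P := fun p => i < p ∧ ∃ q, p < q ∧ q < j ∧ ¬ GeR M (ρ + 1) p q) (B := j) hw
      (fun p hp => by obtain ⟨_, q, h1, h2, _⟩ := hp; omega)
    have hrk0 : ρ ≤ (cp M (mix p a a) (i + 1) q).rank := by
      rw [mix_idem]
      exact base_all hB _ (i + 1) q le_rfl (by omega) (by omega)
        (hG (i + 1) q (by omega) (by omega) hqj)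
    obtain ⟨P, Q, hPQ⟩ := exists_det_ne_zero hrk0
    apply propagate Φ hM (i := i) (p := p) (q := q) (j := j) (t := Fintype.card k * N) (a := a)
      (g := fun b => (P * cp M (mix p a b) (i + 1) q * Q).det) hip.le hpq.le hqj.le
    · apply MPF.det
      refine ((MPF.const P).mul (cp_MPF hM (fun l => ?_) _ _)).mul (MPF.const Q)
      unfold mix
      split_ifs
      · exact IsPF.const _
      · exact IsPF.coord _
    · exact ⟨a, hPQ⟩
    · intro b hb x0
      have hrk : ρ ≤ (cp M (mix p a b) (i + 1) q).rank := le_rank_of_det_ne_zero hb
      have hmem := lemmaA Φ hM hC (i := i) (e := q) (by omega) y (Fintype.card k) p b hpq.le hrk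
        ((Submodule.finrank_le _).trans (by rw [Module.finrank_fintype_fun_eq_card]))
        (Submodule.subset_span ⟨x0, rfl⟩)
      have hRC : ∀ x, Rw Φ M y i q (mix p x b) =
          (y ᵥ* Φ.toFun (cp M x i p)) ᵥ* Φ.toFun (cp M b p q) := by
        intro x
        unfold Rw
        rw [← cp_mul (mix p x b) hip.le hpq.le,
          cp_congr (x := mix p x b) (x' := x) (i := i) (fun l _ hl => mix_lt x b hl),
          cp_congr (x := mix p x b) (x' := b) (i := p) (fun l hl _ => mix_ge x b hl),
          Matrix.vecMul_vecMul, ← map_mul]
      simp only [hRC] at hmem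
      exact hmem
    · intro x' hx'
      apply hC p j (by omega) hjn
      · intro p' q' h1 h2 h3
        by_contra hcon
        exact hmax p' h1 ⟨by omega, q', h2, h3, hcon⟩
      · intro x hx
        rw [← Psi_split' Φ y v hip.le (by omega : p ≤ j) x' x]
        apply h
        have := hx'.mix p hx
        have e1 : Fintype.card k * N + N = (Fintype.card k + 1) * N := by ring
        rw [e1] at this
        exact this
  · push Not at hw
    apply hC i j hij hjn
    · intro p q h1 h2 h3
      exact hw p h1 q h2 h3
    · intro x hx
      exact h x (hx.mono (Nat.le_mul_of_pos_left N (by omega)))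

end Pool.Agent.W2helper94.PIT
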