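import Pool.Agent.W2helper94.PIT.Gen

/-!
# Sums of chains read in different orders (helper file)
-/

namespace Pool.Agent.W2helper94.PIT

open Matrix

variable {F : Type*} [Field F] {m : Type} [Fintype m] [DecidableEq m] {M : ℕ → F → Matrix m m F}

/-- all base conditions -/
def Full (M : ℕ → F → Matrix m m F) (n : ℕ) (a : ℕ → F) : Prop := ∀ ρ, 1 ≤ ρ → Base M n a ρ

theorem full_of_le {n : ℕ} {a : ℕ → F}
    (h : ∀ ρ, 1 ≤ ρ → ρ ≤ Fintype.card m → Base M n a ρ) : Full M n a := by
  intro ρ hρ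
  by_cases hle : ρ ≤ Fintype.card m
  · exact h ρ hρ hle
  · intro i j _ _ _ hG
    obtain ⟨x, hx⟩ := hG
    have := Matrix.rank_le_card_width (cp M x i j)
    omega

theorem Full.rank {n : ℕ} {a : ℕ → F} (h : Full M n a) {ρ i j : ℕ} (hρ : 1 ≤ ρ) (hij : i < j)
    (hj : j ≤ n) (hG : GeR M ρ i j) : ρ ≤ (cp M a i j).rank :=
  base_all (h ρ hρ) _ i j le_rfl hij hj hG

open Classical in
/-- overwriting the coordinates in `S` -/
noncomputable def ovr (S : Set ℕ) (X z : ℕ → F) : ℕ → F := fun l => if l ∈ S then X l else z l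

omit [Field F] in
theorem ovr_mem {S : Set ℕ} {X z : ℕ → F} {l : ℕ} (h : l ∈ S) : ovr S X z l = X l := by
  simp [ovr, h]

omit [Field F] in
theorem ovr_notMem {S : Set ℕ} {X z : ℕ → F} {l : ℕ} (h : l ∉ S) : ovr S X z l = z l := by
  simp [ovr, h]

open Classical in
/-- the chain with the coordinates in `S` frozen at `a` -/
noncomputable def frz (M : ℕ → F → Matrix m m F) (S : Set ℕ) (a : ℕ → F) : ℕ → F → Matrix m m F :=
  fun l t => if l ∈ S then M l (a l) else M l t

theorem cp_frz (S : Set ℕ) (a x : ℕ → F) (i j : ℕ) :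
    cp (frz M S a) x i j = cp M (ovr S a x) i j := by
  unfold cp frz ovr
  congr 1
  apply List.map_congr_left
  intro l _
  split_ifs <;> rfl

theorem frz_poly (hM : ∀ l, ∀ a b, ∃ p : Polynomial F, ∀ t, p.eval t = M l t a b)
    (S : Set ℕ) (a : ℕ → F) :
    ∀ l, ∀ i j, ∃ p : Polynomial F, ∀ t, p.eval t = frz M S a l t i j := by
  intro l i j
  unfold frz
  split_ifs
  · exact ⟨Polynomial.C (M l (a l) i j), fun t => by simp⟩
  · exact hM l i j

omit [Field F] in
theorem ovr_self (S : Set ℕ) (a : ℕ → F) : ovr S a a = a := by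
  funext l
  unfold ovr
  split_ifs <;> rfl

theorem Full.frz {n : ℕ} {a : ℕ → F} (h : Full M n a) (S : Set ℕ) : Full (frz M S a) n a := by
  intro ρ hρ i j hij hj _ hG
  rw [cp_frz, ovr_self]
  apply h.rank hρ hij hj
  obtain ⟨x, hx⟩ := hG
  rw [cp_frz] at hx
  exact ⟨_, hx⟩

/-- block diagonal representation -/
def diagRep (F : Type*) [Field F] (m J : Type) [Fintype m] [DecidableEq m] [Fintype J]
    [DecidableEq J] : PolyRep F m (m × J) where
  toFun :=
    { toFun := fun A => Matrix.blockDiagonal fun _ => A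
      map_one' := Matrix.blockDiagonal_one
      map_mul' := fun A B => Matrix.blockDiagonal_mul (fun _ => A) (fun _ => B) }
  pf := by
    intro ι A hA f g
    show IsPF (fun x => Matrix.blockDiagonal (fun _ => A x) f g)
    simp only [Matrix.blockDiagonal_apply]
    split_ifs
    · exact hA _ _
    · exact IsPF.const 0

theorem Psi_diag {J : Type} [Fintype J] [DecidableEq J] (y v : J → m → F) (i j : ℕ) (x : ℕ → F) :
    Psi (diagRep F m J) M (fun t => y t.2 t.1) (fun t => v t.2 t.1) i j x =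
      ∑ e, y e ⬝ᵥ (cp M x i j *ᵥ v e) := by
  unfold Psi
  have h1 : ∀ t : m × J, ((diagRep F m J).toFun (cp M x i j) *ᵥ fun t => v t.2 t.1) t =
      (cp M x i j *ᵥ v t.2) t.1 := by
    intro t
    obtain ⟨t1, t2⟩ := t
    show (Matrix.blockDiagonal (fun _ => cp M x i j) *ᵥ fun t => v t.2 t.1) (t1, t2) = _
    simp only [Matrix.mulVec, dotProduct, Matrix.blockDiagonal_apply]
    rw [Fintype.sum_prod_type]
    refine Finset.sum_congr rfl fun c _ => ?_
    rw [Finset.sum_eq_single t2]
    · simp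
    · intro b _ hb
      simp [Ne.symm hb]
    · simp
  simp only [dotProduct, h1]
  rw [Fintype.sum_prod_type, Finset.sum_comm]

theorem geR_one_of_ne {x : ℕ → F} {i j p q : ℕ} (h : cp M x i j ≠ 0) (h1 : i ≤ p) (h2 : p ≤ q)
    (h3 : q ≤ j) : GeR M 1 p q := by
  refine ⟨x, ?_⟩
  by_contra hr
  have hr0 : (cp M x p q).rank = 0 := by omega
  have hz : cp M x p q = 0 := by
    have h1 : LinearMap.range (cp M x p q).mulVecLin = ⊥ := by
      rw [← Submodule.finrank_eq_zero (R := F)]
      exact hr0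
    rw [LinearMap.range_eq_bot] at h1
    ext i j
    have h2 := congrFun (LinearMap.congr_fun h1 (Pi.single j 1)) i
    simpa using h2
  apply h
  rw [← cp_mul x h1 (h2.trans h3), ← cp_mul x h2 h3, hz]
  simp

/-- number of modifications for one segment -/
def N0 (w r : ℕ) : ℕ := (w * r + 1) ^ w * 2

variable [Infinite F]

/-- one segment, all matrix functionals -/
theorem seg (hM : ∀ l, ∀ a b, ∃ p : Polynomial F, ∀ t, p.eval t = M l t a b)
    {n : ℕ} {a : ℕ → F} (hF : Full M n a) {J : Type} [Fintype J] [DecidableEq J] {i j : ℕ}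
    (hij : i ≤ j) (hj : j ≤ n) (y v : J → m → F) {z : ℕ → F}
    (hz : ∑ e, y e ⬝ᵥ (cp M z i j *ᵥ v e) ≠ 0) :
    ∃ x, Md a (N0 (Fintype.card m) (Fintype.card J)) x ∧
      ∑ e, y e ⬝ᵥ (cp M x i j *ᵥ v e) ≠ 0 := by
  by_contra hcon
  push Not at hcon
  apply hz
  have hC := claim_all hM (diagRep F m J) (n := n) (a := a) (Fintype.card m) le_rfl
    (fun ρ h1 _ => hF ρ (by omega))
  have e1 : Fintype.card m + 1 - Fintype.card m = 1 := by omega
  rw [e1] at hC
  rw [← Psi_diag]
  have hne : cp M z i j ≠ 0 := by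
    intro h0
    apply hz
    rw [h0]
    simp
  refine hC i j hij hj ?_ _ _ (fun x hx => ?_) z
  · intro p q h1 h2 h3
    exact geR_one_of_ne hne h1.le h2.le h3.le
  · rw [Psi_diag]
    apply hcon x
    unfold N0
    rw [Fintype.card_prod] at hx
    exact hx

/-- combinations of restrictions of a chain -/
theorem rob_chain (hM : ∀ l, ∀ a b, ∃ p : Polynomial F, ∀ t, p.eval t = M l t a b)
    {n : ℕ} {a : ℕ → F} (hF : Full M n a) {J : Type} [Fintype J] [DecidableEq J] (S : Set ℕ)
    (X : J → ℕ → F) (y : J → m → F) :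
    ∀ k c : ℕ, c ≤ n → ∀ E : Finset ℕ, E.card ≤ k → (∀ e, ∀ l ∈ S, l < c → l ∉ E → X e l = a l) →
      ∀ v : J → m → F, ∀ z : ℕ → F, ∑ e, y e ⬝ᵥ (cp M (ovr S (X e) z) 0 c *ᵥ v e) ≠ 0 →
      ∃ x, Md a ((k + 1) * N0 (Fintype.card m) (Fintype.card J)) x ∧
        ∑ e, y e ⬝ᵥ (cp M (ovr S (X e) x) 0 c *ᵥ v e) ≠ 0 := by
  intro k
  -- the case without exceptional positions
  have nox : ∀ k c : ℕ, c ≤ n → (∀ e, ∀ l ∈ S, l < c → X e l = a l) →
      ∀ v : J → m → F, ∀ z : ℕ → F, ∑ e, y e ⬝ᵥ (cp M (ovr S (X e) z) 0 c *ᵥ v e) ≠ 0 →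
      ∃ x, Md a ((k + 1) * N0 (Fintype.card m) (Fintype.card J)) x ∧
        ∑ e, y e ⬝ᵥ (cp M (ovr S (X e) x) 0 c *ᵥ v e) ≠ 0 := by
    intro k c hc hX v z hz
    have hcp : ∀ e (x : ℕ → F), cp M (ovr S (X e) x) 0 c = cp (frz M S a) x 0 c := by
      intro e x
      rw [cp_frz]
      apply cp_congr
      intro l _ hl
      unfold ovr
      split_ifs with h
      · exact hX e l h hl
      · rfl
    simp only [hcp] at hz ⊢
    obtain ⟨x, hx, hne⟩ := seg (frz_poly hM S a) (hF.frz S) (Nat.zero_le c) hc y v hz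
    exact ⟨x, hx.mono (Nat.le_mul_of_pos_left _ (by omega)), hne⟩
  induction k with
  | zero =>
    intro c hc E hE hX v z hz
    have hE0 : E = ∅ := Finset.card_eq_zero.mp (by omega)
    subst hE0
    exact nox 0 c hc (fun e l h1 h2 => hX e l h1 h2 (by simp)) v z hz
  | succ k ih =>
    intro c hc E hE hX v z hz
    by_cases hex : ∃ p, p ∈ S ∧ p < c ∧ p ∈ E
    · obtain ⟨p, ⟨hpS, hpc, hpE⟩, hmax⟩ := exists_max_window
        (P := fun p => p ∈ S ∧ p < c ∧ p ∈ E) (B := c) hex (fun p hp => hp.2.1.le)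
      have hcp : ∀ e (x : ℕ → F), cp M (ovr S (X e) x) (p + 1) c =
          cp (frz M S a) x (p + 1) c := by
        intro e x
        rw [cp_frz]
        apply cp_congr
        intro l hl1 hl2
        unfold ovr
        split_ifs with h
        · by_cases hlE : l ∈ E
          · exact absurd ⟨h, hl2, hlE⟩ (hmax l (by omega))
          · exact hX e l h hl2 hlE
        · rfl
      -- step 1
      have hz1 : ∑ e, (y e ᵥ* cp M (ovr S (X e) z) 0 (p + 1)) ⬝ᵥ
          (cp (frz M S a) z (p + 1) c *ᵥ v e) ≠ 0 := by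
        intro h0
        apply hz
        rw [← h0]
        refine Finset.sum_congr rfl fun e _ => ?_
        rw [← hcp e z, ← cp_mul (ovr S (X e) z) (Nat.zero_le (p + 1)) (by omega : p + 1 ≤ c),
          ← Matrix.mulVec_mulVec, Matrix.dotProduct_mulVec]
      obtain ⟨z1, hz1m, hz1n⟩ := seg (frz_poly hM S a) (hF.frz S) (by omega : p + 1 ≤ c) hc
        _ v hz1
      -- step 2
      have hz2 : ∑ e, y e ⬝ᵥ (cp M (ovr S (X e) z) 0 p *ᵥ
          (cp M (ovr S (X e) z1) p c *ᵥ v e)) ≠ 0 := by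
        intro h0
        apply hz1n
        rw [← h0]
        refine Finset.sum_congr rfl fun e _ => ?_
        have hpp : cp M (ovr S (X e) z) p (p + 1) = cp M (ovr S (X e) z1) p (p + 1) := by
          apply cp_congr
          intro l hl1 hl2
          have : l = p := by omega
          rw [this, ovr_mem hpS, ovr_mem hpS]
        rw [← hcp e z1, ← Matrix.dotProduct_mulVec,
          ← cp_mul (ovr S (X e) z) (Nat.zero_le p) (by omega : p ≤ p + 1),
          ← cp_mul (ovr S (X e) z1) (by omega : p ≤ p + 1) (by omega : p + 1 ≤ c),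
          ← Matrix.mulVec_mulVec, ← Matrix.mulVec_mulVec, hpp]
      obtain ⟨z2, hz2m, hz2n⟩ := ih p (by omega) (E.erase p)
        (by rw [Finset.card_erase_of_mem hpE]; omega)
        (fun e l h1 h2 h3 => hX e l h1 (by omega) (fun h => h3 (Finset.mem_erase.mpr
          ⟨by omega, h⟩))) _ z hz2
      refine ⟨mix p z2 z1, ?_, ?_⟩
      · have := hz2m.mix p hz1m
        have e1 : (k + 1) * N0 (Fintype.card m) (Fintype.card J) +
          N0 (Fintype.card m) (Fintype.card J) =
          (k + 1 + 1) * N0 (Fintype.card m) (Fintype.card J) := by ring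
        rw [e1] at this
        exact this
      · intro h0
        apply hz2n
        rw [← h0]
        refine Finset.sum_congr rfl fun e _ => ?_
        rw [← cp_mul (ovr S (X e) (mix p z2 z1)) (Nat.zero_le p) (by omega : p ≤ c),
          ← Matrix.mulVec_mulVec]
        congr 2
        · apply cp_congr
          intro l _ hl
          unfold ovr
          rw [mix_lt _ _ hl]
        · congr 1
          apply cp_congr
          intro l hl _
          unfold ovr
          rw [mix_ge _ _ hl]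
    · exact nox _ c hc (fun e l h1 h2 => by
        by_cases hlE : l ∈ E
        · exact absurd ⟨l, h1, h2, hlE⟩ hex
        · exact hX e l h1 h2 hlE) v z hz

end Pool.Agent.W2helper94.PIT
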