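import Pool.Agent.W2helper94.PIT.Step

/-!
# Tensor powers of matrices, minors (helper file)
-/

namespace Pool.Agent.W2helper94.PIT

open Matrix

variable {F : Type*} [Field F]

/-- tensor power of a matrix -/
def tens {m n : Type} (r : ℕ) (A : Matrix m n F) : Matrix (Fin r → m) (Fin r → n) F :=
  Matrix.of fun f g => ∏ i, A (f i) (g i)

theorem tens_mul {m n l : Type} [Fintype n] [DecidableEq n] (r : ℕ) (A : Matrix m n F)
    (B : Matrix n l F) : tens r (A * B) = tens r A * tens r B := by
  ext f g
  simp only [tens, Matrix.of_apply, Matrix.mul_apply]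
  rw [Finset.prod_univ_sum]
  simp only [Fintype.piFinset_univ, Finset.prod_mul_distrib]

theorem tens_one {m : Type} [DecidableEq m] (r : ℕ) :
    tens r (1 : Matrix m m F) = 1 := by
  ext f g
  simp only [tens, Matrix.of_apply, Matrix.one_apply]
  by_cases h : f = g
  · subst h
    simp
  · rw [if_neg h]
    obtain ⟨i, hi⟩ := Function.ne_iff.mp h
    exact Finset.prod_eq_zero (Finset.mem_univ i) (by simp [hi])

/-- the tensor power representation -/
def tensRep (F : Type*) [Field F] (m : Type) [Fintype m] [DecidableEq m] (r : ℕ) :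
    PolyRep F m (Fin r → m) where
  toFun :=
    { toFun := tens r
      map_one' := tens_one r
      map_mul' := tens_mul r }
  pf := by
    intro ι A hA f g
    show IsPF (fun x => ∏ i, A x (f i) (g i))
    exact IsPF.prod Finset.univ fun i _ => hA (f i) (g i)

/-- the identity representation -/
def idRep (F : Type*) [Field F] (m : Type) [Fintype m] [DecidableEq m] : PolyRep F m m where
  toFun := MonoidHom.id _
  pf := fun hA => hA

/-- determinants of compressions are functionals of the tensor power -/
theorem det_eq_tens {m : Type} [Fintype m] [DecidableEq m] {r : ℕ} (P : Matrix (Fin r) m F)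
    (Q : Matrix m (Fin r) F) : ∃ y v : (Fin r → m) → F, ∀ A : Matrix m m F,
      (P * A * Q).det = y ⬝ᵥ (tens r A *ᵥ v) := by
  classical
  let s : (Fin r → Fin r) → F := fun g => ∑ τ : Equiv.Perm (Fin r),
    if g = τ then ((Equiv.Perm.sign τ : ℤ) : F) else 0
  refine ⟨fun f => tens r P id f, tens r Q *ᵥ s, fun A => ?_⟩
  have h1 : ∀ X : Matrix (Fin r) (Fin r) F, X.det = (tens r X *ᵥ s) id := by
    intro X
    rw [← Matrix.det_transpose, Matrix.det_apply']
    simp only [Matrix.mulVec, dotProduct, s, Finset.mul_sum, tens, Matrix.of_apply,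
      Matrix.transpose_apply]
    rw [Finset.sum_comm]
    refine Finset.sum_congr rfl fun τ _ => ?_
    rw [Finset.sum_eq_single (τ : Fin r → Fin r)]
    · simp [mul_comm]
    · intro g _ hg
      simp [hg]
    · simp
  rw [h1, tens_mul, tens_mul]
  rw [← Matrix.mulVec_mulVec, ← Matrix.mulVec_mulVec]
  rfl

end Pool.Agent.W2helper94.PIT
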